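import Pool.Agent.W78.EG.Defs2
import Pool.Agent.W125.EX.SLOWQ

/-!
Project EG (helper78), part EG-LOWQ: lower bounds for the number of pairs `(d, d')` with
`d d' = n^2 + t n + c` in residue classes, and for all polynomials of the same discriminant.
-/

set_option autoImplicit false

namespace Pool.Agent.W436.EG

open Finset
open Pool.Agent.W78.EG
open Pool.Agent.W125.EX (B card_B)

/-- completion of a row to a matrix of determinant one, congruent to the identity -/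
lemma compl (q g y : ℕ) (hq : 1 ≤ q) (hc : Nat.Coprime (1 + q * g) y) (hy : q ∣ y) :
    ∃ z w : ℕ, (1 + q * g) * w = 1 + y * z ∧ z ≤ q * (1 + q * g) ∧ w ≤ 1 + q * y ∧ q ∣ z ∧
      w ≡ 1 [MOD q] := by
  obtain ⟨w₀, u₀, hb⟩ := Nat.isCoprime_iff_coprime.2 hc
  obtain ⟨x, hx⟩ : ∃ x : ℕ, x = 1 + q * g := ⟨_, rfl⟩
  have hx1 : 1 ≤ x := by omega
  have hqx : (0 : ℤ) < (q : ℤ) * x := by positivity
  obtain ⟨z, hz⟩ : ∃ z : ℕ, (z : ℤ) = ((q : ℤ) * g * u₀) % ((q : ℤ) * x) :=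
    ⟨(((q : ℤ) * g * u₀) % ((q : ℤ) * x)).toNat,
      Int.toNat_of_nonneg (Int.emod_nonneg _ hqx.ne')⟩
  have hdm := Int.emod_add_mul_ediv ((q : ℤ) * g * u₀) ((q : ℤ) * x)
  rw [← hz] at hdm
  set k : ℤ := ((q : ℤ) * g * u₀) / ((q : ℤ) * x) with hk
  have hxZ : (x : ℤ) = 1 + q * g := by rw [hx]; push_cast; ring
  have hlt : (z : ℤ) < q * x := by rw [hz]; exact Int.emod_lt_of_pos _ hqx
  have hzle : z ≤ q * x := by exact_mod_cast hlt.le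
  have h1 : x ∣ 1 + y * z := by
    have h2 : (x : ℤ) ∣ 1 + y * z := by
      refine ⟨w₀ + u₀ * y - y * q * k, ?_⟩
      have e : (z : ℤ) = q * g * u₀ - q * x * k := by linarith
      rw [e]
      push_cast at hb
      rw [hxZ]
      linear_combination (-1 : ℤ) * hb
    exact_mod_cast h2
  obtain ⟨w, hw⟩ := h1
  refine ⟨z, w, by rw [← hx]; exact hw.symm, by rw [← hx]; exact hzle, ?_, ?_, ?_⟩
  · by_contra hcon
    have h3 : 2 + q * y ≤ w := by omega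
    have h4 : x * (2 + q * y) ≤ x * w := Nat.mul_le_mul_left _ h3
    have h5 : y * z ≤ y * (q * x) := Nat.mul_le_mul_left _ hzle
    have h6 : x * (2 + q * y) = 2 * x + y * (q * x) := by ring
    omega
  · have h7 : (q : ℤ) ∣ z := by
      refine ⟨g * u₀ - x * k, ?_⟩
      linear_combination hdm
    exact_mod_cast h7
  · obtain ⟨y₁, hy₁⟩ := hy
    have h8 : (q : ℤ) ∣ (w : ℤ) - 1 := by
      refine ⟨y₁ * z - g * w, ?_⟩
      have hwZ : (1 : ℤ) + y * z = x * w := by exact_mod_cast hw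
      rw [hy₁, hxZ] at hwZ
      push_cast at hwZ
      linear_combination -hwZ
    exact (Nat.modEq_iff_dvd.2 (by exact_mod_cast h8)).symm

/-- the two rows of a matrix are determined by the transformed form -/
lemma inj2 (d₀ d₀' β r x p x' p' : ℕ) (W : ℤ) (hd : 1 ≤ d₀) (hd' : 1 ≤ d₀') (hr : 1 ≤ r)
    (hx : 1 ≤ x) (hp : 1 ≤ p)
    (hx' : 1 ≤ x') (hp' : 1 ≤ p') (hc : Nat.Coprime x p) (hc' : Nat.Coprime x' p')
    (he : x ^ 2 + β * x * (r * p) + d₀' * d₀ * (r * p) ^ 2 =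
      x' ^ 2 + β * x' * (r * p') + d₀' * d₀ * (r * p') ^ 2)
    (hW : (x * p' : ℤ) - x' * p =
      ((x ^ 2 + β * x * (r * p) + d₀' * d₀ * (r * p) ^ 2 : ℕ) : ℤ) * W) :
    x = x' ∧ p = p' := by
  obtain ⟨E, hE⟩ : ∃ E : ℕ, E = x ^ 2 + β * x * (r * p) + d₀' * d₀ * (r * p) ^ 2 := ⟨_, rfl⟩
  have hE' : E = x' ^ 2 + β * x' * (r * p') + d₀' * d₀ * (r * p') ^ 2 := by rw [hE, he]
  rw [← hE] at hW
  have hgen : ∀ s : ℕ, s ^ 2 ≤ d₀' * d₀ * (r * s) ^ 2 := by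
    intro s
    have h1 : 1 ≤ d₀' * d₀ := Nat.mul_pos hd' hd
    have h2 : s ≤ r * s := Nat.le_mul_of_pos_left s hr
    calc s ^ 2 = 1 * s ^ 2 := (one_mul _).symm
      _ ≤ d₀' * d₀ * (r * s) ^ 2 := Nat.mul_le_mul h1 (Nat.pow_le_pow_left h2 2)
  have hg := hgen p
  have hg' := hgen p'
  have hx2 : 1 ≤ x ^ 2 := Nat.one_le_pow _ _ hx
  have hx2' : 1 ≤ x' ^ 2 := Nat.one_le_pow _ _ hx'
  have hp2 : 1 ≤ p ^ 2 := Nat.one_le_pow _ _ hp
  have hp2' : 1 ≤ p' ^ 2 := Nat.one_le_pow _ _ hp'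
  have b0 : 0 ≤ β * x * (r * p) := Nat.zero_le _
  have b0' : 0 ≤ β * x' * (r * p') := Nat.zero_le _
  have c1 : x ^ 2 + p ^ 2 ≤ E := by rw [hE]; omega
  have c2 : x' ^ 2 + p' ^ 2 ≤ E := by rw [hE']; omega
  have c1Z : (x : ℤ) ^ 2 + p ^ 2 ≤ E := by exact_mod_cast c1
  have c2Z : (x' : ℤ) ^ 2 + p' ^ 2 ≤ E := by exact_mod_cast c2
  have hxZ : (1 : ℤ) ≤ x := by exact_mod_cast hx
  have hpZ : (1 : ℤ) ≤ p := by exact_mod_cast hp
  have hxZ' : (1 : ℤ) ≤ x' := by exact_mod_cast hx'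
  have hpZ' : (1 : ℤ) ≤ p' := by exact_mod_cast hp'
  have hlt1 : (x : ℤ) * p' < E := by nlinarith [sq_nonneg ((x : ℤ) - p')]
  have hlt2 : (x' : ℤ) * p < E := by nlinarith [sq_nonneg ((x' : ℤ) - p)]
  have hq1 : (0 : ℤ) < x * p' := by positivity
  have hq2 : (0 : ℤ) < x' * p := by positivity
  have hE0 : (0 : ℤ) < E := by nlinarith
  have hW0 : W = 0 := by
    by_contra hne
    rcases lt_or_gt_of_ne hne with h | h
    · have h1 : W ≤ -1 := by omega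
      have h2 : (E : ℤ) * W ≤ E * (-1) := mul_le_mul_of_nonneg_left h1 hE0.le
      linarith
    · have h1 : 1 ≤ W := by omega
      have h2 : (E : ℤ) * 1 ≤ E * W := mul_le_mul_of_nonneg_left h1 hE0.le
      linarith
  rw [hW0, mul_zero] at hW
  have h4' : x * p' = x' * p := by
    have : (x : ℤ) * p' = x' * p := by linarith
    exact_mod_cast this
  have h5 : x ∣ x' := hc.dvd_of_dvd_mul_right (Dvd.intro _ h4')
  have h6 : x' ∣ x := hc'.dvd_of_dvd_mul_right (Dvd.intro _ h4'.symm)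
  have h7 : x = x' := Nat.dvd_antisymm h5 h6
  refine ⟨h7, ?_⟩
  rw [h7] at h4'
  exact (Nat.eq_of_mul_eq_mul_left (by omega) h4').symm

/-- many pairs with `n ≡ n₀`, `d ≡ d₀`, `n ≥ n₀` -/
theorem core (τ : ℕ) (c : ℤ) (q n₀ d₀ d₀' : ℕ) (hq : 1 ≤ q) (hd : 1 ≤ d₀) (hd' : 1 ≤ d₀')
    (h0 : (d₀ * d₀' : ℤ) = (n₀ : ℤ) ^ 2 + τ * n₀ + c) :
    ∃ c₁ : ℝ, 0 < c₁ ∧ ∃ X₀ : ℕ, ∀ X : ℕ, X₀ ≤ X → ∃ S : Finset (ℕ × ℕ),
      c₁ * X ≤ (S.card : ℝ) ∧ ∀ p ∈ S, (1 ≤ p.1 ∧ p.1 ≤ X) ∧ (1 ≤ p.2 ∧ p.2 ≤ X) ∧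
      ∃ n : ℕ, n₀ ≤ n ∧ (p.1 * p.2 : ℤ) = (n : ℤ) ^ 2 + τ * n + c ∧ n ≡ n₀ [MOD q] ∧
        p.1 ≡ d₀ [MOD q] := by
  classical
  obtain ⟨β, hβ⟩ : ∃ β : ℕ, β = 2 * n₀ + τ := ⟨_, rfl⟩
  obtain ⟨r, hr⟩ : ∃ r : ℕ, r = 2 * q := ⟨_, rfl⟩
  obtain ⟨Q, hQ⟩ : ∃ Q : ℕ, Q = d₀ * r := ⟨_, rfl⟩
  have hr1 : 1 ≤ r := by omega
  have hQ1 : 1 ≤ Q := by rw [hQ]; exact Nat.mul_pos hd hr1
  have hQ2 : 2 ∣ Q := ⟨d₀ * q, by rw [hQ, hr]; ring⟩
  obtain ⟨L, hL⟩ : ∃ L : ℕ, L = d₀ + β + d₀' := ⟨_, rfl⟩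
  have hL1 : 1 ≤ L := by omega
  obtain ⟨K, hK⟩ : ∃ K : ℕ, K = 64 * (q ^ 2 * Q ^ 2 * L) := ⟨_, rfl⟩
  have hK1 : 1 ≤ K := by
    have : 1 ≤ q ^ 2 * Q ^ 2 * L :=
      Nat.mul_pos (Nat.mul_pos (Nat.one_le_pow _ _ hq) (Nat.one_le_pow _ _ hQ1)) hL1
    omega
  have hKR : (1 : ℝ) ≤ K := by exact_mod_cast hK1
  refine ⟨1 / (8 * K), by positivity, 4 ^ 6 * K, fun X hX => ?_⟩
  set j := Nat.log 4 (X / K) with hj
  have hX' : 4 ^ 6 ≤ X / K := (Nat.le_div_iff_mul_le hK1).2 hX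
  have hj6 : 6 ≤ j := by
    rw [hj]
    exact Nat.le_log_of_pow_le (by norm_num) hX'
  have hjX : 4 ^ j * K ≤ X := by
    refine (Nat.le_div_iff_mul_le hK1).1 (Nat.pow_log_le_self 4 ?_)
    have : 0 < 4 ^ 6 := by norm_num
    omega
  have hjlow : (X : ℝ) ≤ (4 : ℝ) ^ (j + 1) * K := by
    have h1 : X / K < 4 ^ (j + 1) := Nat.lt_pow_succ_log_self (by norm_num) _
    have h2 : X < 4 ^ (j + 1) * K := (Nat.div_lt_iff_lt_mul hK1).1 h1
    exact_mod_cast h2.le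
  -- the pairs
  have hBm : ∀ p ∈ B Q j, 2 ^ j < p.1 ∧ p.1 ≤ 2 ^ (j + 1) ∧ 2 ^ j < p.2 ∧
      p.2 ≤ 2 ^ (j + 1) ∧ Nat.Coprime (1 + Q * p.1) (Q * p.2) := by
    intro p hp
    unfold B at hp
    rw [mem_filter, mem_product, mem_Ioc, mem_Ioc] at hp
    exact ⟨hp.1.1.1, hp.1.1.2, hp.1.2.1, hp.1.2.2, hp.2⟩
  have hex : ∀ p : ℕ × ℕ, ∃ zw : ℕ × ℕ, p ∈ B Q j →
      (1 + Q * p.1) * zw.2 = 1 + (Q * p.2) * zw.1 ∧ zw.1 ≤ q * (1 + Q * p.1) ∧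
      zw.2 ≤ 1 + q * (Q * p.2) ∧ q ∣ zw.1 ∧ zw.2 ≡ 1 [MOD q] := by
    intro p
    by_cases hp : p ∈ B Q j
    · obtain ⟨h3, h4, h5, h6, h7⟩ := hBm p hp
      have e : 1 + Q * p.1 = 1 + q * (2 * d₀ * p.1) := by rw [hQ, hr]; ring
      rw [e] at h7
      obtain ⟨z, w, h⟩ := compl q (2 * d₀ * p.1) (Q * p.2) hq h7
        ⟨2 * d₀ * p.2, by rw [hQ, hr]; ring⟩
      rw [← e] at h
      exact ⟨(z, w), fun _ => h⟩
    · exact ⟨(0, 0), fun h => absurd h hp⟩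
  choose ζ hζ using hex
  -- the norms
  obtain ⟨F, hF⟩ : ∃ F : ℕ → ℕ → ℕ, ∀ x y, F x y = d₀ * x ^ 2 + β * (x * y) + d₀' * y ^ 2 :=
    ⟨fun x y => d₀ * x ^ 2 + β * (x * y) + d₀' * y ^ 2, fun _ _ => rfl⟩
  have hFle : ∀ x y M : ℕ, x ≤ M → y ≤ M → F x y ≤ L * M ^ 2 := by
    intro x y M hx hy
    rw [hF]
    have h1 : d₀ * x ^ 2 ≤ d₀ * M ^ 2 := Nat.mul_le_mul_left _ (Nat.pow_le_pow_left hx 2)
    have h2 : d₀' * y ^ 2 ≤ d₀' * M ^ 2 := Nat.mul_le_mul_left _ (Nat.pow_le_pow_left hy 2)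
    have h3 : β * (x * y) ≤ β * M ^ 2 := by
      rw [pow_two]
      exact Nat.mul_le_mul_left _ (Nat.mul_le_mul hx hy)
    calc _ ≤ d₀ * M ^ 2 + β * M ^ 2 + d₀' * M ^ 2 := by omega
      _ = L * M ^ 2 := by rw [hL]; ring
  obtain ⟨ν, hν⟩ : ∃ ν : ℕ → ℕ → ℕ → ℕ → ℕ, ∀ x y z w, ν x y z w =
      d₀ * (x * z) + n₀ * (x * w + y * z) + τ * (y * z) + d₀' * (y * w) :=
    ⟨fun x y z w => d₀ * (x * z) + n₀ * (x * w + y * z) + τ * (y * z) + d₀' * (y * w),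
      fun _ _ _ _ => rfl⟩
  have hmul : ∀ x y z w : ℕ, x * w = 1 + y * z →
      (F x y * F z w : ℤ) = (ν x y z w : ℤ) ^ 2 + τ * (ν x y z w) + c := by
    intro x y z w h
    have hZ : (x : ℤ) * w = 1 + y * z := by exact_mod_cast h
    rw [hF, hF, hν, hβ]
    have hc : c = (d₀ * d₀' : ℤ) - (n₀ : ℤ) ^ 2 - τ * n₀ := by linarith
    rw [hc]
    push_cast
    linear_combination (((d₀ : ℤ) * d₀' - n₀ ^ 2 - n₀ * τ) * (x * w - y * z + 1) +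
      τ * (d₀ * (x * z) + n₀ * (x * w + y * z) + d₀' * (y * w)) + τ ^ 2 * (y * z)) * hZ
  have hrow : ∀ x y z w : ℕ, x * w = 1 + y * z →
      (d₀ * x : ℤ) + (n₀ + ν x y z w + τ) * y = F x y * w := by
    intro x y z w h
    have hZ : (x : ℤ) * w = 1 + y * z := by exact_mod_cast h
    rw [hF, hν, hβ]
    push_cast
    linear_combination (-(d₀ : ℤ) * x - (n₀ + τ) * y) * hZ
  have hνn : ∀ x y z w : ℕ, x * w = 1 + y * z → n₀ ≤ ν x y z w := by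
    intro x y z w h
    rw [hν, h]
    have : n₀ * 1 ≤ n₀ * (1 + y * z + y * z) := Nat.mul_le_mul_left _ (by omega)
    omega
  have hFQ : ∀ p : ℕ × ℕ, F (1 + Q * p.1) (Q * p.2) = d₀ * ((1 + Q * p.1) ^ 2 +
      β * (1 + Q * p.1) * (r * p.2) + d₀' * d₀ * (r * p.2) ^ 2) := by
    intro p
    rw [hF, hQ]
    ring
  refine ⟨(B Q j).image (fun p => (F (1 + Q * p.1) (Q * p.2), F (ζ p).1 (ζ p).2)), ?_, ?_⟩
  · have hinj : Set.InjOn (fun p => (F (1 + Q * p.1) (Q * p.2), F (ζ p).1 (ζ p).2))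
        (B Q j : Set (ℕ × ℕ)) := by
      intro p hp p' hp' h
      have hp1 : p ∈ B Q j := hp
      have hp1' : p' ∈ B Q j := hp'
      obtain ⟨h3, h4, h5, h6, h7⟩ := hBm p hp1
      obtain ⟨h3', h4', h5', h6', h7'⟩ := hBm p' hp1'
      obtain ⟨g1, g2, g3, g4, g5⟩ := hζ p hp1
      obtain ⟨g1', g2', g3', g4', g5'⟩ := hζ p' hp1'
      simp only [Prod.mk.injEq] at h
      obtain ⟨e1, e2⟩ := h
      have k1 := hmul _ _ _ _ g1
      have k2 := hmul _ _ _ _ g1'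
      rw [e1, e2, k2] at k1
      have e4 : ν (1 + Q * p.1) (Q * p.2) (ζ p).1 (ζ p).2 =
          ν (1 + Q * p'.1) (Q * p'.2) (ζ p').1 (ζ p').2 := by
        have k3 : (ν (1 + Q * p.1) (Q * p.2) (ζ p).1 (ζ p).2) ^ 2 +
            τ * (ν (1 + Q * p.1) (Q * p.2) (ζ p).1 (ζ p).2) =
            (ν (1 + Q * p'.1) (Q * p'.2) (ζ p').1 (ζ p').2) ^ 2 +
            τ * (ν (1 + Q * p'.1) (Q * p'.2) (ζ p').1 (ζ p').2) := by
          have : ((ν (1 + Q * p.1) (Q * p.2) (ζ p).1 (ζ p).2 : ℕ) : ℤ) ^ 2 +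
            τ * (ν (1 + Q * p.1) (Q * p.2) (ζ p).1 (ζ p).2 : ℕ) =
            ((ν (1 + Q * p'.1) (Q * p'.2) (ζ p').1 (ζ p').2 : ℕ) : ℤ) ^ 2 +
            τ * (ν (1 + Q * p'.1) (Q * p'.2) (ζ p').1 (ζ p').2 : ℕ) := by linarith
          exact_mod_cast this
        have hmono : StrictMono (fun n : ℕ => n ^ 2 + τ * n) := by
          intro m n hmn
          have h1 : m ^ 2 < n ^ 2 := Nat.pow_lt_pow_left hmn (by norm_num)
          have h2 : τ * m ≤ τ * n := Nat.mul_le_mul_left _ hmn.le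
          show m ^ 2 + τ * m < n ^ 2 + τ * n
          omega
        exact hmono.injective k3
      have r1 := hrow _ _ _ _ g1
      have r2 := hrow _ _ _ _ g1'
      rw [e1, e4] at r1
      have hfe : F (1 + Q * p'.1) (Q * p'.2) = d₀ * ((1 + Q * p.1) ^ 2 +
          β * (1 + Q * p.1) * (r * p.2) + d₀' * d₀ * (r * p.2) ^ 2) := by rw [← e1, hFQ]
      have he : (1 + Q * p.1) ^ 2 + β * (1 + Q * p.1) * (r * p.2) + d₀' * d₀ * (r * p.2) ^ 2 =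
          (1 + Q * p'.1) ^ 2 + β * (1 + Q * p'.1) * (r * p'.2) +
            d₀' * d₀ * (r * p'.2) ^ 2 := by
        rw [hFQ] at hfe
        exact (Nat.eq_of_mul_eq_mul_left hd hfe).symm
      rw [hfe] at r1 r2
      have hd0Z : (d₀ : ℤ) ≠ 0 := by exact_mod_cast (by omega : d₀ ≠ 0)
      have hQ0Z : (Q : ℤ) ≠ 0 := by exact_mod_cast (by omega : Q ≠ 0)
      have hc7 : Nat.Coprime (1 + Q * p.1) p.2 := Nat.Coprime.coprime_mul_left_right h7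
      have hc7' : Nat.Coprime (1 + Q * p'.1) p'.2 := Nat.Coprime.coprime_mul_left_right h7'
      obtain ⟨k3, k4⟩ := inj2 d₀ d₀' β r (1 + Q * p.1) p.2 (1 + Q * p'.1) p'.2
        (((ζ p).2 : ℤ) * p'.2 - (ζ p').2 * p.2) hd hd' hr1 (by omega) (by omega) (by omega)
        (by omega) hc7 hc7' he (by
          apply mul_left_cancel₀ hd0Z
          apply mul_left_cancel₀ hQ0Z
          push_cast at r1 r2 ⊢
          linear_combination (Q : ℤ) * (p'.2 : ℤ) * r1 - (Q : ℤ) * (p.2 : ℤ) * r2)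
      have k5 : Q * p.1 = Q * p'.1 := by omega
      exact Prod.ext (Nat.eq_of_mul_eq_mul_left hQ1 k5) k4
    rw [card_image_of_injOn hinj]
    have hcB := card_B Q j hQ2 hj6
    refine le_trans ?_ hcB
    rw [one_div_mul_eq_div, div_le_iff₀ (by positivity)]
    refine hjlow.trans (le_of_eq ?_)
    rw [pow_succ]
    ring
  · intro s hs
    rw [mem_image] at hs
    obtain ⟨p, hp, rfl⟩ := hs
    obtain ⟨h3, h4, h5, h6, h7⟩ := hBm p hp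
    obtain ⟨g1, g2, g3, g4, g5⟩ := hζ p hp
    obtain ⟨x, hx⟩ : ∃ x : ℕ, x = 1 + Q * p.1 := ⟨_, rfl⟩
    obtain ⟨y, hy⟩ : ∃ y : ℕ, y = Q * p.2 := ⟨_, rfl⟩
    obtain ⟨z, hz⟩ : ∃ z : ℕ, z = (ζ p).1 := ⟨_, rfl⟩
    obtain ⟨w, hw⟩ : ∃ w : ℕ, w = (ζ p).2 := ⟨_, rfl⟩
    rw [← hx, ← hy, ← hz, ← hw] at g1
    rw [← hx, ← hz] at g2
    rw [← hy, ← hw] at g3
    rw [← hz] at g4
    rw [← hw] at g5
    simp only
    rw [← hx, ← hy, ← hz, ← hw]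
    obtain ⟨M, hM⟩ : ∃ M : ℕ, M = 4 * (Q * 2 ^ j) := ⟨_, rfl⟩
    have hxM : x ≤ M := by
      have h8 : Q * p.1 ≤ Q * 2 ^ (j + 1) := Nat.mul_le_mul_left _ h4
      have h9 : 1 * 1 ≤ Q * 2 ^ j := Nat.mul_le_mul hQ1 Nat.one_le_two_pow
      have h10 : Q * 2 ^ (j + 1) = 2 * (Q * 2 ^ j) := by rw [pow_succ]; ring
      omega
    have hyM : y ≤ M := by
      have h8 : Q * p.2 ≤ Q * 2 ^ (j + 1) := Nat.mul_le_mul_left _ h6
      have h10 : Q * 2 ^ (j + 1) = 2 * (Q * 2 ^ j) := by rw [pow_succ]; ring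
      omega
    have hM1 : 1 ≤ M := by omega
    have hqM : 1 ≤ q * M := Nat.mul_pos hq hM1
    have hMM : M ≤ 2 * (q * M) := by
      have : 1 * M ≤ q * M := Nat.mul_le_mul_right _ hq
      omega
    have hzM : z ≤ 2 * (q * M) := by
      have : q * x ≤ q * M := Nat.mul_le_mul_left _ hxM
      omega
    have hwM : w ≤ 2 * (q * M) := by
      have : q * y ≤ q * M := Nat.mul_le_mul_left _ hyM
      omega
    have hKX : L * (2 * (q * M)) ^ 2 ≤ X := by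
      refine le_trans (le_of_eq ?_) hjX
      rw [hM, hK, show (4 : ℕ) ^ j = (2 ^ j) ^ 2 by rw [← pow_mul, mul_comm, pow_mul]; norm_num]
      ring
    have hx1 : 1 ≤ x := by omega
    have hw1 : 1 ≤ w := by
      by_contra hcon
      have : w = 0 := by omega
      rw [this] at g1
      omega
    have hF1 : 1 ≤ F x y := by
      rw [hF]
      have : 1 * 1 ≤ d₀ * x ^ 2 := Nat.mul_le_mul hd (Nat.one_le_pow _ _ hx1)
      omega
    have hF2 : 1 ≤ F z w := by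
      rw [hF]
      have : 1 * 1 ≤ d₀' * w ^ 2 := Nat.mul_le_mul hd' (Nat.one_le_pow _ _ hw1)
      omega
    have hqQ : q ∣ Q := ⟨d₀ * 2, by rw [hQ, hr]; ring⟩
    have hymod : y ≡ 0 [MOD q] := by
      rw [hy]
      exact (Nat.modEq_zero_iff_dvd.2 (hqQ.mul_right _))
    have hzmod : z ≡ 0 [MOD q] := Nat.modEq_zero_iff_dvd.2 g4
    have hxmod : x ≡ 1 [MOD q] := by
      rw [hx]
      have h8 : Q * p.1 ≡ 0 [MOD q] := Nat.modEq_zero_iff_dvd.2 (hqQ.mul_right _)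
      simpa using (Nat.ModEq.refl 1).add h8
    refine ⟨⟨hF1, (hFle x y _ (hxM.trans hMM) (hyM.trans hMM)).trans hKX⟩,
      ⟨hF2, (hFle z w _ hzM hwM).trans hKX⟩, ν x y z w, hνn _ _ _ _ g1, ?_, ?_, ?_⟩
    · have := hmul x y z w g1
      exact this
    · rw [hν]
      have a1 : d₀ * (x * z) ≡ 0 [MOD q] := by
        simpa using (Nat.ModEq.refl d₀).mul ((Nat.ModEq.refl x).mul hzmod)
      have a2 : n₀ * (x * w + y * z) ≡ n₀ [MOD q] := by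
        simpa using (Nat.ModEq.refl n₀).mul ((hxmod.mul g5).add (hymod.mul hzmod))
      have a3 : τ * (y * z) ≡ 0 [MOD q] := by
        simpa using (Nat.ModEq.refl τ).mul (hymod.mul hzmod)
      have a4 : d₀' * (y * w) ≡ 0 [MOD q] := by
        simpa using (Nat.ModEq.refl d₀').mul (hymod.mul (Nat.ModEq.refl w))
      simpa using ((a1.add a2).add a3).add a4
    · rw [hF]
      have a1 : d₀ * x ^ 2 ≡ d₀ [MOD q] := by
        simpa using (Nat.ModEq.refl d₀).mul (hxmod.pow 2)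
      have a2 : β * (x * y) ≡ 0 [MOD q] := by
        simpa using (Nat.ModEq.refl β).mul ((Nat.ModEq.refl x).mul hymod)
      have a3 : d₀' * y ^ 2 ≡ 0 [MOD q] := by
        simpa using (Nat.ModEq.refl d₀').mul (hymod.pow 2)
      simpa using (a1.add a2).add a3

variable {t c : ℤ} {f : ℕ} {χ : DirichletCharacter ℂ f}

/-- SPR: lower bound for the number of pairs with `n ≡ n₀`, `d ≡ d₀ mod q` -/
theorem spr (hF : Fd t c f χ) (_h : S_CORR t c) : S_SPR t c := by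
  classical
  intro q n₀ d₀ d₀' hq hd hd' h0 hp
  obtain ⟨τ, rfl⟩ : ∃ τ : ℕ, t = (τ : ℤ) := by
    rcases hF.tt with h | h
    · exact ⟨0, by rw [h]; rfl⟩
    · exact ⟨1, by rw [h]; rfl⟩
  obtain ⟨c₁, hc₁, X₀, hX⟩ := core τ c q n₀ d₀ d₀' hq hd hd' h0
  refine ⟨c₁, hc₁, X₀, fun X hXX => ?_⟩
  obtain ⟨S, hS, hS2⟩ := hX X hXX
  refine hS.trans ?_
  have hsub : S ⊆ (SP (τ : ℤ) c X).filter (Cd (τ : ℤ) c q n₀ d₀) := by
    intro p hpS
    obtain ⟨h1, h2, n, h3, h4, h5, h6⟩ := hS2 p hpS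
    have h3Z : (n₀ : ℤ) ≤ n := by exact_mod_cast h3
    have h7 : 0 < 2 * (n : ℤ) + τ := by linarith
    rw [mem_filter]
    refine ⟨?_, n, h7, h4, h5, h6⟩
    unfold SP
    rw [mem_filter, mem_product, mem_Icc, mem_Icc]
    exact ⟨⟨h1, h2⟩, n, h7, h4⟩
  exact_mod_cast card_le_card hsub

/-- LOWQ: lower bound for the number of pairs for all polynomials of the same discriminant -/
theorem lowq (hF : Fd t c f χ) (_h : S_SPR t c) : S_LOWQ t c := by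
  classical
  intro a b e ha hdis q u hq
  obtain ⟨τ, rfl⟩ : ∃ τ : ℕ, t = (τ : ℤ) := by
    rcases hF.tt with h | h
    · exact ⟨0, by rw [h]; rfl⟩
    · exact ⟨1, by rw [h]; rfl⟩
  have hdisc := hF.disc
  have hthree := hF.three
  -- `b = 2 s + t`
  obtain ⟨s, hs⟩ : ∃ s : ℤ, b = 2 * s + τ := by
    have h1 : (b - τ) * (b + τ) = 4 * (a * e - c) := by linear_combination hdis
    rcases Int.even_or_odd (b - τ) with h2 | h2
    · obtain ⟨s, hs⟩ := h2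
      exact ⟨s, by linarith⟩
    · exfalso
      obtain ⟨k, hk⟩ := h2
      have h3 : (b - τ) * (b + τ) = 2 * (2 * k ^ 2 + 2 * k + 2 * k * τ + τ) + 1 := by
        have : b = 2 * k + 1 + τ := by linarith
        rw [this]; ring
      rw [h3] at h1
      omega
  obtain ⟨α, rfl⟩ : ∃ α : ℕ, a = (α : ℤ) := ⟨a.toNat, (Int.toNat_of_nonneg ha.le).symm⟩
  have hα : 1 ≤ α := by exact_mod_cast ha
  have key : ∀ m : ℤ, (α : ℤ) * (α * m ^ 2 + b * m + e) =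
      (α * m + s) ^ 2 + τ * (α * m + s) + c := by
    intro m
    have h4 : 4 * ((α : ℤ) * e) = 4 * (s ^ 2 + τ * s + c) := by
      rw [hs] at hdis
      linear_combination -hdis
    have h5 : (α : ℤ) * e = s ^ 2 + τ * s + c := by linarith
    rw [hs]
    linear_combination h5
  obtain ⟨m₀, hm₀⟩ : ∃ m₀ : ℕ, m₀ = u + q * (s.natAbs + 1) := ⟨_, rfl⟩
  have hm₀' : s.natAbs + 1 ≤ m₀ := by
    have : 1 * (s.natAbs + 1) ≤ q * (s.natAbs + 1) := Nat.mul_le_mul_right _ hq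
    omega
  have hm₀u : m₀ ≡ u [MOD q] := by
    rw [hm₀]
    simp
  have hn₀pos : 1 ≤ (α : ℤ) * m₀ + s := by
    have h1 : (s.natAbs : ℤ) + 1 ≤ m₀ := by exact_mod_cast hm₀'
    have h2 : (1 : ℤ) * m₀ ≤ α * m₀ :=
      mul_le_mul_of_nonneg_right (by exact_mod_cast hα) (by positivity)
    have h3 : -(s.natAbs : ℤ) ≤ s := by omega
    linarith
  obtain ⟨n₀, hn₀⟩ : ∃ n₀ : ℕ, (n₀ : ℤ) = α * m₀ + s :=
    ⟨((α : ℤ) * m₀ + s).toNat, Int.toNat_of_nonneg (by linarith)⟩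
  have hfpos : 0 < (α : ℤ) * (m₀ : ℤ) ^ 2 + b * m₀ + e := by
    have h1 := key m₀
    rw [← hn₀] at h1
    have h2 : 0 < (n₀ : ℤ) ^ 2 + τ * n₀ + c := by
      have h3 : (1 : ℤ) ≤ n₀ := by rw [hn₀]; exact hn₀pos
      have h4 : (0 : ℤ) ≤ τ := by positivity
      have h5 : (0 : ℤ) < c := by nlinarith
      positivity
    rw [← h1] at h2
    exact (mul_pos_iff_of_pos_left ha).1 h2
  obtain ⟨d', hd'⟩ : ∃ d' : ℕ, (d' : ℤ) = (α : ℤ) * (m₀ : ℤ) ^ 2 + b * m₀ + e :=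
    ⟨((α : ℤ) * (m₀ : ℤ) ^ 2 + b * m₀ + e).toNat, Int.toNat_of_nonneg hfpos.le⟩
  have hd'1 : 1 ≤ d' := by
    have : (0 : ℤ) < d' := by rw [hd']; exact hfpos
    exact_mod_cast this
  obtain ⟨c₁, hc₁, X₀, hX⟩ := core τ c (α * q) n₀ α d' (Nat.mul_pos hα hq) hα hd'1
    (by rw [hd', key, ← hn₀])
  refine ⟨c₁, hc₁, X₀, fun X hXX => ?_⟩
  obtain ⟨S, hS, hS2⟩ := hX X hXX
  refine hS.trans ?_
  have hdvd : ∀ p ∈ S, α ∣ p.1 := by
    intro p hpS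
    obtain ⟨h1, h2, n, h3, h4, h5, h6⟩ := hS2 p hpS
    have h7 : p.1 ≡ α [MOD α] := Nat.ModEq.of_mul_right q h6
    have h8 : α ≡ 0 [MOD α] := Nat.modEq_zero_iff_dvd.2 dvd_rfl
    exact Nat.modEq_zero_iff_dvd.1 (h7.trans h8)
  have hcard := card_le_card_of_injOn (s := S) (t := ((Icc 1 X) ×ˢ (Icc 1 X)).filter
    (fun p : ℕ × ℕ => ∃ m : ℕ, (p.1 * p.2 : ℤ) = (α : ℤ) * (m : ℤ) ^ 2 + b * m + e ∧
      m ≡ u [MOD q])) (fun p => (p.1 / α, p.2)) ?_ ?_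
  · exact_mod_cast hcard
  · intro p hpS
    have hpS' : p ∈ S := hpS
    obtain ⟨h1, h2, n, h3, h4, h5, h6⟩ := hS2 p hpS'
    obtain ⟨g, hg⟩ := hdvd p hpS'
    obtain ⟨k, hk⟩ := (Nat.modEq_iff_dvd' h3).1 h5.symm
    rw [mem_coe, mem_filter, mem_product, mem_Icc, mem_Icc]
    simp only
    have hgd : p.1 / α = g := by rw [hg]; exact Nat.mul_div_cancel_left _ hα
    rw [hgd]
    have hg1 : 1 ≤ g := by
      by_contra hcon
      have : g = 0 := by omega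
      rw [this, mul_zero] at hg
      omega
    have hgX : g ≤ X := by
      have : 1 * g ≤ α * g := Nat.mul_le_mul_right _ hα
      omega
    refine ⟨⟨⟨hg1, hgX⟩, h2⟩, m₀ + q * k, ?_, ?_⟩
    · have hnk : n = n₀ + α * q * k := by omega
      have hnZ : (α : ℤ) * ((m₀ + q * k : ℕ) : ℤ) + s = n := by
        rw [hnk]
        push_cast
        rw [hn₀]
        ring
      have h7 := key ((m₀ + q * k : ℕ) : ℤ)
      rw [hnZ, ← h4, hg] at h7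
      push_cast at h7 ⊢
      apply mul_left_cancel₀ ha.ne'
      rw [h7]
      ring
    · have h8 : q * k ≡ 0 [MOD q] := Nat.modEq_zero_iff_dvd.2 (dvd_mul_right _ _)
      simpa using hm₀u.add h8
  · intro p hp p' hp' h
    obtain ⟨g, hg⟩ := hdvd p hp
    obtain ⟨g', hg'⟩ := hdvd p' hp'
    simp only [Prod.mk.injEq] at h
    obtain ⟨e1, e2⟩ := h
    refine Prod.ext ?_ e2
    rw [hg, hg', Nat.mul_div_cancel_left _ hα, Nat.mul_div_cancel_left _ hα] at e1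
    rw [hg, hg', e1]

end Pool.Agent.W436.EG
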