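import Pool.Agent.W436.EG.SPS
import Pool.Agent.W591.GA.Equ
import Pool.Agent.W29.GA.Mult
import Pool.Agent.W898.GA.Large

/-! Project EG, part EG-SPS: the lower bound without analytic hypotheses (helper436). -/

set_option autoImplicit false

namespace Pool.Agent.W436.EG

open Pool.Agent.W78.EG

/-- SPSC for the class number one polynomials; `hl`: no value is divisible by the square of a
ramified prime -/
theorem spsc {t c : ℤ} {f : ℕ} {χ : DirichletCharacter ℂ f} (hF : Fd t c f χ)
    (hl : ∀ l : ℕ, l.Prime → l ∣ f → ∀ n : ℤ, ¬ ((l ^ 2 : ℕ) : ℤ) ∣ n ^ 2 + t * n + c) :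
    Pool.Agent.W251.EG.S_SPSc t c := by
  have hD : t ^ 2 < 4 * c := by
    have h1 := hF.disc
    have h2 : (3 : ℤ) ≤ f := by exact_mod_cast hF.three
    rw [h1]
    linarith
  exact spsc_of hF hl (Pool.Agent.W591.GA.equ_of hD)
    (Pool.Agent.W898.GA.large_of hD (Pool.Agent.W29.GA.mult hD))

end Pool.Agent.W436.EG
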