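import Pool.Agent.W251.EG.Defs3
import Pool.Agent.W591.GA.Sqb
import Pool.Agent.W436.EG.LOWQ

/-!
Project EG, part EG-SPS: lower bound for the number of pairs `(d, d')` with `d d' = n^2+tn+c`
squarefree and `n` in a residue class (port of `Pool.Agent.W935.EX.SPS`).
-/

set_option autoImplicit false

namespace Pool.Agent.W436.EG

open Finset
open Pool.Agent.W78.GA (Qd nm prim dt ip dedge pball NN mem_pball nm_cast S_EQU S_LARGE)
open Pool.Agent.W78.EG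
open Pool.Agent.W125.EX (B card_B)
open Pool.Agent.W591.GA (rd rd_dvd classes card_le_classes tail_all)

variable {τ γ : ℕ}

/-! ### the residue class -/

/-- the polynomial -/
def fq (τ γ n : ℕ) : ℕ := n ^ 2 + τ * n + γ

lemma fq_cast (n : ℕ) : ((fq τ γ n : ℕ) : ℤ) = (n : ℤ) ^ 2 + τ * n + γ := by
  unfold fq
  push_cast
  ring

/-- one step of the choice of the residue class -/
lemma step {m n l : ℕ} (hl : l.Prime) (hf : ¬ (l : ℤ) ∣ (τ : ℤ) ^ 2 - 4 * γ) (h : ¬ l ^ 2 ∣ m) :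
    ∃ k : ℕ, ¬ l ^ 2 ∣ fq τ γ (n + k * m) := by
  by_contra hcon
  push Not at hcon
  have h0 : ((l : ℤ) ^ 2) ∣ (n : ℤ) ^ 2 + τ * n + γ := by
    have h1 : ((l ^ 2 : ℕ) : ℤ) ∣ ((fq τ γ (n + 0 * m) : ℕ) : ℤ) := by exact_mod_cast hcon 0
    rw [fq_cast] at h1
    push_cast at h1
    simpa using h1
  have h1 : ((l : ℤ) ^ 2) ∣ ((n : ℤ) + m) ^ 2 + τ * (n + m) + γ := by
    have h1 : ((l ^ 2 : ℕ) : ℤ) ∣ ((fq τ γ (n + 1 * m) : ℕ) : ℤ) := by exact_mod_cast hcon 1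
    rw [fq_cast] at h1
    push_cast at h1
    simpa using h1
  have h2 : ((l : ℤ) ^ 2) ∣ ((n : ℤ) + 2 * m) ^ 2 + τ * (n + 2 * m) + γ := by
    have h1 : ((l ^ 2 : ℕ) : ℤ) ∣ ((fq τ γ (n + 2 * m) : ℕ) : ℤ) := by exact_mod_cast hcon 2
    rw [fq_cast] at h1
    push_cast at h1
    exact h1
  have hp := Nat.prime_iff_prime_int.1 hl
  have a1 : ((l : ℤ) ^ 2) ∣ m * (2 * n + m + τ) := by
    have := dvd_sub h1 h0
    have e : ((n : ℤ) + m) ^ 2 + τ * (n + m) + γ - ((n : ℤ) ^ 2 + τ * n + γ) =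
        m * (2 * n + m + τ) := by ring
    rwa [e] at this
  have a2 : ((l : ℤ) ^ 2) ∣ m * (2 * (2 * n + 2 * m + τ)) := by
    have := dvd_sub h2 h0
    have e : ((n : ℤ) + 2 * m) ^ 2 + τ * (n + 2 * m) + γ - ((n : ℤ) ^ 2 + τ * n + γ) =
        m * (2 * (2 * n + 2 * m + τ)) := by ring
    rwa [e] at this
  by_cases hm : (l : ℤ) ∣ m
  · obtain ⟨m', hm'⟩ := hm
    have hm0 : ¬ (l : ℤ) ∣ m' := by
      rintro ⟨m'', rfl⟩
      apply h
      have : ((l : ℤ) ^ 2) ∣ m := ⟨m'', by rw [hm']; ring⟩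
      exact_mod_cast this
    rw [hm'] at a1
    have hl0 : (l : ℤ) ≠ 0 := hp.ne_zero
    have a3 : (l : ℤ) ∣ m' * (2 * n + l * m' + τ) := by
      have e : (l : ℤ) * m' * (2 * n + l * m' + τ) = l * (m' * (2 * n + l * m' + τ)) := by ring
      rw [e, pow_two] at a1
      exact (mul_dvd_mul_iff_left hl0).1 a1
    have a4 := (hp.dvd_or_dvd a3).resolve_left hm0
    have a5 : (l : ℤ) ∣ 2 * n + τ := by
      have e : (2 * (n : ℤ) + l * m' + τ) = (2 * n + τ) + l * m' := by ring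
      rw [e] at a4
      exact (dvd_add_left (dvd_mul_right _ _)).1 a4
    have a6 : (l : ℤ) ∣ (n : ℤ) ^ 2 + τ * n + γ := (dvd_pow_self _ two_ne_zero).trans h0
    apply hf
    have e : (τ : ℤ) ^ 2 - 4 * γ = (2 * n + τ) * (2 * n + τ) -
        4 * ((n : ℤ) ^ 2 + τ * n + γ) := by ring
    rw [e]
    exact dvd_sub (a5.mul_right _) (a6.mul_left _)
  · have hc : IsCoprime ((l : ℤ) ^ 2) m := IsCoprime.pow_left (hp.coprime_iff_not_dvd.2 hm)
    have b1 := hc.dvd_of_dvd_mul_left a1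
    have b2 := hc.dvd_of_dvd_mul_left a2
    by_cases hl2 : l = 2
    · rw [hl2] at b2 hf
      have b3 : (2 : ℤ) ∣ τ := by
        have : ((2 : ℕ) : ℤ) ^ 2 = 4 := by norm_num
        rw [this] at b2
        omega
      apply hf
      have e : (τ : ℤ) ^ 2 - 4 * γ = τ * τ - 2 * (2 * γ) := by ring
      rw [e]
      exact dvd_sub (b3.mul_right _) (dvd_mul_right _ _)
    · have hodd : ¬ (l : ℤ) ∣ 2 := by
        intro hd
        have : l ∣ 2 := by exact_mod_cast hd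
        exact hl2 ((Nat.prime_dvd_prime_iff_eq hl Nat.prime_two).1 this)
      have hc2 : IsCoprime ((l : ℤ) ^ 2) 2 := IsCoprime.pow_left (hp.coprime_iff_not_dvd.2 hodd)
      have b3 := hc2.dvd_of_dvd_mul_left b2
      have b4 : ((l : ℤ) ^ 2) ∣ m := by
        have := dvd_sub b3 b1
        have e : (2 * (n : ℤ) + 2 * m + τ) - (2 * n + m + τ) = m := by ring
        rwa [e] at this
      exact hm ((dvd_pow_self _ two_ne_zero).trans b4)

lemma dvd_shift {d m n k : ℕ} (h : d ∣ m) : d ∣ fq τ γ (n + k * m) ↔ d ∣ fq τ γ n := by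
  have e : fq τ γ (n + k * m) = m * (k * (2 * n + k * m + τ)) + fq τ γ n := by
    unfold fq; ring
  rw [e]
  exact Nat.dvd_add_right (h.mul_right _)

lemma fq_modEq {n a N : ℕ} (h : n ≡ a [MOD N]) : fq τ γ n ≡ fq τ γ a [MOD N] :=
  ((h.pow 2).add (h.mul_left τ)).add_right γ

/-- the residue class -/
lemma choice (hdf : ∀ l : ℕ, l.Prime → (l : ℤ) ∣ (τ : ℤ) ^ 2 - 4 * γ → ∀ n, ¬ l ^ 2 ∣ fq τ γ n)
    (q a : ℕ) (h : ∀ l : ℕ, l.Prime → l ^ 2 ∣ q → ¬ l ^ 2 ∣ fq τ γ a)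
    (P : ℕ) : ∃ n : ℕ, n ≡ a [MOD q] ∧ ∀ l : ℕ, l.Prime → l ≤ P → ¬ l ^ 2 ∣ fq τ γ n := by
  induction P with
  | zero =>
    refine ⟨a, rfl, fun l hl h0 => ?_⟩
    rw [Nat.le_zero.1 h0] at hl
    exact absurd hl Nat.not_prime_zero
  | succ P ih =>
    obtain ⟨n, h1, h2⟩ := ih
    by_cases hp : (P + 1).Prime
    · by_cases hdd : ((P + 1 : ℕ) : ℤ) ∣ (τ : ℤ) ^ 2 - 4 * γ
      · refine ⟨n, h1, fun l hl hle => ?_⟩
        rcases Nat.lt_or_ge l (P + 1) with hlt | hge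
        · exact h2 l hl (by omega)
        · obtain rfl : l = P + 1 := by omega
          exact hdf _ hp hdd n
      by_cases hs : (P + 1) ^ 2 ∣ q * P.factorial ^ 2
      · refine ⟨n, h1, fun l hl hle => ?_⟩
        rcases Nat.lt_or_ge l (P + 1) with hlt | hge
        · exact h2 l hl (by omega)
        · obtain rfl : l = P + 1 := by omega
          have hc : Nat.Coprime ((P + 1) ^ 2) (P.factorial ^ 2) :=
            Nat.Coprime.pow 2 2 ((Nat.Prime.coprime_iff_not_dvd hp).2 fun h' => by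
              have := (Nat.Prime.dvd_factorial hp).1 h'
              omega)
          have hq := hc.dvd_of_dvd_mul_right hs
          have h3 : fq τ γ n ≡ fq τ γ a [MOD (P + 1) ^ 2] := fq_modEq (h1.of_dvd hq)
          intro h4
          exact h _ hp hq ((h3.dvd_iff dvd_rfl).1 h4)
      · obtain ⟨k, hk⟩ := step (n := n) hp hdd hs
        refine ⟨n + k * (q * P.factorial ^ 2), ?_, fun l hl hle => ?_⟩
        · have : n + k * (q * P.factorial ^ 2) = n + q * (k * P.factorial ^ 2) := by ring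
          rw [this]
          have h3 : n + q * (k * P.factorial ^ 2) ≡ n + 0 [MOD q] :=
            Nat.ModEq.add_left n ((Nat.modEq_zero_iff_dvd).2 (dvd_mul_right _ _))
          rw [add_zero] at h3
          exact h3.trans h1
        · rcases Nat.lt_or_ge l (P + 1) with hlt | hge
          · have h3 : l ^ 2 ∣ q * P.factorial ^ 2 :=
              (pow_dvd_pow_of_dvd (Nat.dvd_factorial hl.pos (by omega)) 2).mul_left _
            rw [dvd_shift h3]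
            exact h2 l hl (by omega)
          · obtain rfl : l = P + 1 := by omega
            exact hk
    · refine ⟨n, h1, fun l hl hle => h2 l hl ?_⟩
      have : l ≠ P + 1 := fun e => hp (e ▸ hl)
      omega

/-! ### the vectors -/

/-- the norm form on natural numbers -/
def Fn (τ γ x y : ℕ) : ℕ := x ^ 2 + τ * (x * y) + γ * y ^ 2

/-- a vector with nonnegative coordinates -/
def mk (τ γ x y : ℕ) : Qd (τ : ℤ) (γ : ℤ) := ⟨(x : ℤ), (y : ℤ)⟩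

lemma nm_mk (x y : ℕ) : nm (mk τ γ x y) = Fn τ γ x y := by
  unfold nm mk Fn
  have e : ((x : ℤ) ^ 2 + τ * x * y + γ * (y : ℤ) ^ 2) =
      ((x ^ 2 + τ * (x * y) + γ * y ^ 2 : ℕ) : ℤ) := by push_cast; ring
  simp only
  rw [e]
  rfl

lemma Fn_mono {x y x' y' : ℕ} (h1 : x ≤ x') (h2 : y ≤ y') : Fn τ γ x y ≤ Fn τ γ x' y' := by
  unfold Fn
  exact Nat.add_le_add (Nat.add_le_add (Nat.pow_le_pow_left h1 2)
    (Nat.mul_le_mul_left _ (Nat.mul_le_mul h1 h2))) (Nat.mul_le_mul_left _ (Nat.pow_le_pow_left h2 2))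

lemma Fn_diag (Z : ℕ) : Fn τ γ Z Z = (1 + τ + γ) * Z ^ 2 := by
  unfold Fn
  ring

/-- the value of `n` -/
def nu (τ γ x y z u : ℕ) : ℕ := x * z + τ * (y * z) + γ * (y * u)

lemma Fn_mul {x y z u : ℕ} (h : x * u = 1 + y * z) :
    Fn τ γ x y * Fn τ γ z u = fq τ γ (nu τ γ x y z u) := by
  have hZ : (x : ℤ) * u = 1 + y * z := by exact_mod_cast h
  have : ((Fn τ γ x y * Fn τ γ z u : ℕ) : ℤ) = ((fq τ γ (nu τ γ x y z u) : ℕ) : ℤ) := by
    rw [fq_cast]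
    unfold Fn nu
    push_cast
    linear_combination ((γ : ℤ) * (x * u - y * z + 1) +
      τ * ((x * z) + γ * (y * u)) + τ ^ 2 * (y * z)) * hZ
  exact_mod_cast this

lemma Fn_row {x y z u : ℕ} (h : x * u = 1 + y * z) :
    (x : ℤ) + (nu τ γ x y z u + τ) * y = Fn τ γ x y * u := by
  have hZ : (x : ℤ) * u = 1 + y * z := by exact_mod_cast h
  unfold Fn nu
  push_cast
  linear_combination (-(x : ℤ) - τ * y) * hZ

lemma dt_mk {x y z u : ℕ} (h : x * u = 1 + y * z) : dt (mk τ γ x y) (mk τ γ z u) = 1 := by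
  have hZ : (x : ℤ) * u = 1 + y * z := by exact_mod_cast h
  show (x : ℤ) * u - y * z = 1
  linarith

lemma prim_of_dt {t c : ℤ} {v w : Qd t c} (h : dt v w = 1) : prim v ∧ prim w := by
  unfold dt at h
  constructor
  · have h1 : ((Int.gcd v.re v.im : ℕ) : ℤ) ∣ v.re * w.im - v.im * w.re :=
      dvd_sub ((Int.gcd_dvd_left ..).mul_right _) ((Int.gcd_dvd_right ..).mul_right _)
    rw [h] at h1
    unfold prim
    have h2 : Int.gcd v.re v.im ∣ 1 := by exact_mod_cast h1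
    exact Nat.dvd_one.1 h2
  · have h1 : ((Int.gcd w.re w.im : ℕ) : ℤ) ∣ v.re * w.im - v.im * w.re :=
      dvd_sub ((Int.gcd_dvd_right ..).mul_left _) ((Int.gcd_dvd_left ..).mul_left _)
    rw [h] at h1
    unfold prim
    have h2 : Int.gcd w.re w.im ∣ 1 := by exact_mod_cast h1
    exact Nat.dvd_one.1 h2

/-- completion of the first row -/
lemma compl2 (M n₀ g y : ℕ) (hM : 1 ≤ M) (hc : Nat.Coprime (1 + M * g) y) (hy : M ∣ y) :
    ∃ z u : ℕ, (1 + M * g) * u = 1 + y * z ∧ z ≤ 2 * (M * (1 + M * g)) ∧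
      u ≤ 1 + 2 * (M * y) ∧ z ≡ n₀ [MOD M] ∧ u ≡ 1 [MOD M] := by
  obtain ⟨z, u, h1, h2, h3, h4, h5⟩ := compl M g y hM hc hy
  have hr : n₀ % M < M := Nat.mod_lt _ hM
  refine ⟨z + (n₀ % M) * (1 + M * g), u + (n₀ % M) * y, ?_, ?_, ?_, ?_, ?_⟩
  · have e1 : (1 + M * g) * (u + (n₀ % M) * y) =
        (1 + M * g) * u + (n₀ % M) * (1 + M * g) * y := by ring
    rw [e1, h1]
    ring
  · have : (n₀ % M) * (1 + M * g) ≤ M * (1 + M * g) := Nat.mul_le_mul_right _ hr.le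
    omega
  · have : (n₀ % M) * y ≤ M * y := Nat.mul_le_mul_right _ hr.le
    omega
  · have e1 : z ≡ 0 [MOD M] := Nat.modEq_zero_iff_dvd.2 h4
    have e2 : 1 + M * g ≡ 1 [MOD M] := by
      simp
    have e3 : n₀ % M ≡ n₀ [MOD M] := Nat.mod_modEq _ _
    simpa using e1.add (e3.mul e2)
  · have e1 : y ≡ 0 [MOD M] := Nat.modEq_zero_iff_dvd.2 hy
    simpa using h5.add ((Nat.ModEq.refl (n₀ % M)).mul e1)

/-- reduction of the second row -/
lemma reduce {x y z u : ℕ} (h : x * u = 1 + y * z) (hx : 1 ≤ x) (hy : 1 ≤ y) :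
    ∃ u' : ℕ, u = u' + z / x * y ∧ x * u' = 1 + y * (z % x) ∧ u' ≤ y := by
  have hd := Nat.div_add_mod z x
  have hlt : z % x < x := Nat.mod_lt _ hx
  have h1 : z / x * y ≤ u := by
    by_contra hc
    have h2 : u + 1 ≤ z / x * y := by omega
    have h3 : x * (u + 1) ≤ x * (z / x * y) := Nat.mul_le_mul_left _ h2
    have h4 : x * (z / x * y) ≤ z * y := by
      have : x * (z / x) ≤ z := by omega
      calc x * (z / x * y) = x * (z / x) * y := by ring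
        _ ≤ z * y := Nat.mul_le_mul_right _ this
    have h5 : x * (u + 1) = x * u + x := by ring
    have h6 : z * y = y * z := mul_comm _ _
    omega
  obtain ⟨u', hu'⟩ := Nat.exists_eq_add_of_le h1
  refine ⟨u', by omega, ?_, ?_⟩
  · have h2 : x * u = x * (z / x) * y + x * u' := by rw [hu']; ring
    have h3 : y * z = x * (z / x) * y + y * (z % x) := by
      calc y * z = y * (x * (z / x) + z % x) := by rw [hd]
        _ = _ := by ring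
    omega
  · have h2 : x * u = x * (z / x) * y + x * u' := by rw [hu']; ring
    have h3 : y * z = x * (z / x) * y + y * (z % x) := by
      calc y * z = y * (x * (z / x) + z % x) := by rw [hd]
        _ = _ := by ring
    have h4 : x * u' = 1 + y * (z % x) := by omega
    have h5 : y * (z % x) ≤ y * (x - 1) := Nat.mul_le_mul_left _ (by omega)
    have h6 : y * (x - 1) + y = y * x := by
      calc y * (x - 1) + y = y * (x - 1 + 1) := by ring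
        _ = y * x := by rw [Nat.sub_add_cancel hx]
    have h7 : x * u' ≤ x * y := by
      rw [h4, mul_comm x y]
      omega
    exact Nat.le_of_mul_le_mul_left h7 hx

/-! ### shears -/

/-- shear -/
def sh {t c : ℤ} (s : ℤ) (e : Qd t c × Qd t c) : Qd t c × Qd t c :=
  (e.1, ⟨e.2.re + s * e.1.re, e.2.im + s * e.1.im⟩)

lemma dt_sh {t c : ℤ} (s : ℤ) (e : Qd t c × Qd t c) : dt (sh s e).1 (sh s e).2 = dt e.1 e.2 := by
  simp only [sh, dt]
  ring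

lemma rd_sh {t c : ℤ} {N : ℕ} {s : ℤ} {e e' : Qd t c × Qd t c} (h : rd N (sh s e) = rd N (sh s e')) :
    rd N e = rd N e' := by
  unfold rd at h ⊢
  simp only [sh, Prod.mk.injEq] at h ⊢
  obtain ⟨⟨h1, h2⟩, h3, h4⟩ := h
  push_cast at h3 h4
  rw [h1] at h3
  rw [h2] at h4
  exact ⟨⟨h1, h2⟩, add_right_cancel h3, add_right_cancel h4⟩

lemma rd_of_dvd {t c : ℤ} {N : ℕ} {e e' : Qd t c × Qd t c} (h : (N : ℤ) ∣ e.1.re - e'.1.re ∧
    (N : ℤ) ∣ e.1.im - e'.1.im ∧ (N : ℤ) ∣ e.2.re - e'.2.re ∧ (N : ℤ) ∣ e.2.im - e'.2.im) :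
    rd N e = rd N e' := by
  have key : ∀ a b : ℤ, (N : ℤ) ∣ a - b → (a : ZMod N) = b := by
    intro a b hab
    have := (ZMod.intCast_zmod_eq_zero_iff_dvd (a - b) N).2 hab
    push_cast at this
    exact sub_eq_zero.1 this
  unfold rd
  rw [key _ _ h.1, key _ _ h.2.1, key _ _ h.2.2.1, key _ _ h.2.2.2]

/-- the pairs for one prime and one shear -/
lemma cnt_l {t c : ℤ} (hD : t ^ 2 < 4 * c) (M n₀ l k : ℕ) (hl : l.Prime)
    (hlD : ¬ (l : ℤ) ∣ t ^ 2 - 4 * c)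
    (hlM : Nat.Coprime l M) (Y B : ℝ) (hB : 0 ≤ B)
    (hE : ∀ x₁ y₁ x₂ y₂ : ℤ, (open scoped Classical in
      (((dedge t c Y).filter (fun e => ((M * l ^ 2 : ℕ) : ℤ) ∣ e.1.re - x₁ ∧
        ((M * l ^ 2 : ℕ) : ℤ) ∣ e.1.im - y₁ ∧ ((M * l ^ 2 : ℕ) : ℤ) ∣ e.2.re - x₂ ∧
        ((M * l ^ 2 : ℕ) : ℤ) ∣ e.2.im - y₂)).card : ℝ)) ≤ B)
    (s : Finset (Qd t c × Qd t c)) (hs : s ⊆ dedge t c Y)
    (hs2 : ∀ e ∈ s, l ^ 2 ∣ NN (sh k e) ∧ (M : ℤ) ∣ e.1.re - 1 ∧ (M : ℤ) ∣ e.1.im ∧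
      (M : ℤ) ∣ e.2.re - (n₀ - k) ∧ (M : ℤ) ∣ e.2.im - 1) :
    (s.card : ℝ) ≤ ((6 * l ^ 4 : ℕ) : ℝ) * B := by
  classical
  obtain ⟨β, hβ, f, hf1, hf2⟩ := classes hD hl hlD
  have hcop : IsCoprime (M : ℤ) ((l : ℤ) ^ 2) := by
    have : Nat.Coprime M (l ^ 2) := Nat.Coprime.pow_right 2 hlM.symm
    have h := Nat.isCoprime_iff_coprime.2 this
    push_cast at h
    exact h
  refine card_le_classes (l := M * l ^ 2) (k := 6 * l ^ 4) s (dedge t c Y) hs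
    (fun e => dt e.1 e.2 = 1 ∧ l ^ 2 ∣ NN (sh k e) ∧ (M : ℤ) ∣ e.1.re - 1 ∧ (M : ℤ) ∣ e.1.im ∧
      (M : ℤ) ∣ e.2.re - (n₀ - k) ∧ (M : ℤ) ∣ e.2.im - 1) ?_
    ⟨β, hβ, fun e => f (sh k e), hf1, ?_⟩ B hB hE
  · intro e he
    have h1 := hs he
    unfold dedge at h1
    rw [mem_filter] at h1
    exact ⟨h1.2, hs2 e he⟩
  · rintro e e' ⟨a0, a1, a2, a3, a4, a5⟩ ⟨b0, b1, b2, b3, b4, b5⟩ hff
    have h1 := hf2 (sh k e) (sh k e') ((dt_sh _ _).trans a0) ((dt_sh _ _).trans b0) a1 b1 hff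
    obtain ⟨c1, c2, c3, c4⟩ := rd_dvd (rd_sh h1)
    push_cast at c1 c2 c3 c4
    have key : ∀ x : ℤ, (M : ℤ) ∣ x → (l : ℤ) ^ 2 ∣ x → ((M * l ^ 2 : ℕ) : ℤ) ∣ x := by
      intro x h1 h2
      push_cast
      exact hcop.mul_dvd h1 h2
    refine rd_of_dvd ⟨key _ ?_ c1, key _ ?_ c2, key _ ?_ c3, key _ ?_ c4⟩
    · have := dvd_sub a2 b2
      have e : e.1.re - 1 - (e'.1.re - 1) = e.1.re - e'.1.re := by ring
      rwa [e] at this
    · exact dvd_sub a3 b3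
    · have := dvd_sub a4 b4
      have e : e.2.re - (n₀ - k) - (e'.2.re - (n₀ - k)) = e.2.re - e'.2.re := by ring
      rwa [e] at this
    · have := dvd_sub a5 b5
      have e : e.2.im - 1 - (e'.2.im - 1) = e.2.im - e'.2.im := by ring
      rwa [e] at this

lemma fq_mono : StrictMono (fq τ γ) := by
  intro m n hmn
  have h1 : m ^ 2 < n ^ 2 := Nat.pow_lt_pow_left hmn (by norm_num)
  have h2 : τ * m ≤ τ * n := Nat.mul_le_mul_left _ hmn.le
  show m ^ 2 + τ * m + γ < n ^ 2 + τ * n + γ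
  omega

open scoped Classical in
/-- the count at one scale -/
lemma level (hD : (τ : ℤ) ^ 2 < 4 * (γ : ℤ)) (C : ℝ) (hC : 0 < C) (M n₀ P j X Y : ℕ) (L : ℝ)
    (hM1 : 1 ≤ M) (hM2 : 2 ∣ M) (hγ : 1 ≤ γ)
    (hY : Y = 16 * (1 + τ + γ) * M ^ 2 * 4 ^ j)
    (hPM : ∀ l : ℕ, l.Prime → l ≤ P → l ^ 2 ∣ M) (hPM' : ∀ l : ℕ, l.Prime → P < l → Nat.Coprime l M)
    (hPD : ∀ l : ℕ, l.Prime → P < l → ¬ (l : ℤ) ∣ (τ : ℤ) ^ 2 - 4 * (γ : ℤ))
    (hP3 : 2304 * (1 + τ + γ) * C ≤ P) (hP1 : 1 ≤ P)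
    (hn₀ : ∀ l : ℕ, l.Prime → l ≤ P → ¬ l ^ 2 ∣ fq τ γ n₀) (hj : 6 ≤ j)
    (hX : 4 * M ^ 2 * Y ≤ X)
    (hE : ∀ l : ℕ, l.Prime → P < l → (l : ℝ) ≤ L → ∀ x₁ y₁ x₂ y₂ : ℤ,
      (((dedge (τ : ℤ) (γ : ℤ) (Y : ℝ)).filter (fun e => ((M * l ^ 2 : ℕ) : ℤ) ∣ e.1.re - x₁ ∧
        ((M * l ^ 2 : ℕ) : ℤ) ∣ e.1.im - y₁ ∧ ((M * l ^ 2 : ℕ) : ℤ) ∣ e.2.re - x₂ ∧
        ((M * l ^ 2 : ℕ) : ℤ) ∣ e.2.im - y₂)).card : ℝ) ≤
        C * (Y : ℝ) / ((M * l ^ 2 : ℕ) : ℝ) ^ 3)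
    (hLg : (((dedge (τ : ℤ) (γ : ℤ) (4 * (M : ℝ) ^ 2 * Y)).filter (fun e => ∃ l : ℕ,
      l.Prime ∧ L < (l : ℝ) ∧ l ^ 2 ∣ NN e)).card : ℝ) ≤ 4 ^ j / 8) :
    (4 : ℝ) ^ j / 4 ≤ (((SP (τ : ℤ) (γ : ℤ) X).filter (fun p => Squarefree (p.1 * p.2) ∧
      ∃ n : ℕ, 0 < 2 * (n : ℤ) + (τ : ℤ) ∧
        (p.1 * p.2 : ℤ) = (n : ℤ) ^ 2 + (τ : ℤ) * n + (γ : ℤ) ∧ n ≡ n₀ [MOD M])).card : ℝ) := by
  have hMR : (1 : ℝ) ≤ M := by exact_mod_cast hM1
  have hBm : ∀ p ∈ B M j, 2 ^ j < p.1 ∧ p.1 ≤ 2 ^ (j + 1) ∧ 2 ^ j < p.2 ∧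
      p.2 ≤ 2 ^ (j + 1) ∧ Nat.Coprime (1 + M * p.1) (M * p.2) := by
    intro p hp
    unfold B at hp
    rw [mem_filter, mem_product, mem_Ioc, mem_Ioc] at hp
    exact ⟨hp.1.1.1, hp.1.1.2, hp.1.2.1, hp.1.2.2, hp.2⟩
  obtain ⟨Z, hZ⟩ : ∃ Z : ℕ, Z = 4 * (M * 2 ^ j) := ⟨_, rfl⟩
  have hYZ : Fn τ γ Z Z = Y := by
    rw [Fn_diag, hZ, hY, show (4 : ℕ) ^ j = (2 ^ j) ^ 2 by
      rw [← pow_mul, mul_comm, pow_mul]; norm_num]
    ring
  have hYZ2 : Fn τ γ (2 * (M * Z)) (2 * (M * Z)) = 4 * M ^ 2 * Y := by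
    rw [← hYZ, Fn_diag, Fn_diag]
    ring
  have hex : ∀ p : ℕ × ℕ, ∃ zu : ℕ × ℕ × ℕ, p ∈ B M j →
      (1 + M * p.1) * zu.2.1 = 1 + (M * p.2) * zu.1 ∧ zu.1 ≤ 2 * (M * (1 + M * p.1)) ∧
      zu.2.1 ≤ 1 + 2 * (M * (M * p.2)) ∧ zu.1 ≡ n₀ [MOD M] ∧ zu.2.1 ≡ 1 [MOD M] ∧
      zu.2.1 = zu.2.2 + zu.1 / (1 + M * p.1) * (M * p.2) ∧
      (1 + M * p.1) * zu.2.2 = 1 + (M * p.2) * (zu.1 % (1 + M * p.1)) ∧ zu.2.2 ≤ M * p.2 := by
    intro p
    by_cases hp : p ∈ B M j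
    · obtain ⟨h3, h4, h5, h6, h7⟩ := hBm p hp
      obtain ⟨z, u, g1, g2, g3, g4, g5⟩ := compl2 M n₀ p.1 (M * p.2) hM1 h7 (dvd_mul_right _ _)
      obtain ⟨u', k1, k2, k3⟩ := reduce g1 (by omega) (Nat.mul_pos hM1 (by omega))
      exact ⟨(z, u, u'), fun _ => ⟨g1, g2, g3, g4, g5, k1, k2, k3⟩⟩
    · exact ⟨(0, 0, 0), fun h => absurd h hp⟩
  choose ζ hζ using hex
  -- notation
  obtain ⟨V, hV⟩ : ∃ V : ℕ × ℕ → Qd (τ : ℤ) (γ : ℤ), ∀ p, V p = mk τ γ (1 + M * p.1) (M * p.2) :=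
    ⟨_, fun _ => rfl⟩
  obtain ⟨W, hW⟩ : ∃ W : ℕ × ℕ → Qd (τ : ℤ) (γ : ℤ), ∀ p, W p = mk τ γ (ζ p).1 (ζ p).2.1 :=
    ⟨_, fun _ => rfl⟩
  obtain ⟨κ, hκ⟩ : ∃ κ : ℕ × ℕ → ℕ, ∀ p, κ p = (ζ p).1 / (1 + M * p.1) := ⟨_, fun _ => rfl⟩
  obtain ⟨ν, hν⟩ : ∃ ν : ℕ × ℕ → ℕ, ∀ p, ν p =
      nu τ γ (1 + M * p.1) (M * p.2) (ζ p).1 (ζ p).2.1 := ⟨_, fun _ => rfl⟩
  obtain ⟨e₁, he₁⟩ : ∃ e₁ : ℕ × ℕ → Qd (τ : ℤ) (γ : ℤ) × Qd (τ : ℤ) (γ : ℤ), ∀ p, e₁ p =
      (V p, mk τ γ ((ζ p).1 % (1 + M * p.1)) (ζ p).2.2) := ⟨_, fun _ => rfl⟩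
  have hVinj : ∀ p p', V p = V p' → p = p' := by
    intro p p' h
    rw [hV, hV] at h
    have h1 := congrArg (fun z : Qd (τ : ℤ) (γ : ℤ) => z.re) h
    have h2 := congrArg (fun z : Qd (τ : ℤ) (γ : ℤ) => z.im) h
    simp only [mk] at h1 h2
    have h3 : M * p.1 = M * p'.1 := by
      have : 1 + M * p.1 = 1 + M * p'.1 := by exact_mod_cast h1
      omega
    have h4 : M * p.2 = M * p'.2 := by exact_mod_cast h2
    exact Prod.ext (Nat.eq_of_mul_eq_mul_left hM1 h3) (Nat.eq_of_mul_eq_mul_left hM1 h4)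
  have hxZ : ∀ p ∈ B M j, 1 + M * p.1 ≤ Z ∧ 2 * (M * p.2) ≤ Z ∧ 1 ≤ Z := by
    intro p hp
    obtain ⟨h3, h4, h5, h6, h7⟩ := hBm p hp
    have h8 : M * p.1 ≤ M * 2 ^ (j + 1) := Nat.mul_le_mul_left _ h4
    have h8' : M * p.2 ≤ M * 2 ^ (j + 1) := Nat.mul_le_mul_left _ h6
    have h9 : 1 * 1 ≤ M * 2 ^ j := Nat.mul_le_mul hM1 Nat.one_le_two_pow
    have h10 : M * 2 ^ (j + 1) = 2 * (M * 2 ^ j) := by rw [pow_succ]; ring
    omega
  have hVle : ∀ p ∈ B M j, nm (V p) ≤ Y := by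
    intro p hp
    obtain ⟨h1, h2, h3⟩ := hxZ p hp
    rw [hV, nm_mk, ← hYZ]
    exact Fn_mono h1 (by omega)
  have hV1 : ∀ p, 1 ≤ nm (V p) := by
    intro p
    rw [hV, nm_mk]
    unfold Fn
    have : 1 ≤ (1 + M * p.1) ^ 2 := Nat.one_le_pow _ _ (by omega)
    omega
  have hWle : ∀ p ∈ B M j, nm (W p) ≤ 4 * M ^ 2 * Y := by
    intro p hp
    obtain ⟨h1, h2, h3⟩ := hxZ p hp
    obtain ⟨g1, g2, g3, -⟩ := hζ p hp
    rw [hW, nm_mk, ← hYZ2]
    have h4 : M * (1 + M * p.1) ≤ M * Z := Nat.mul_le_mul_left _ h1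
    have h5 : M * (2 * (M * p.2)) ≤ M * Z := Nat.mul_le_mul_left _ h2
    have h6 : M * (2 * (M * p.2)) = 2 * (M * (M * p.2)) := by ring
    have h7 : 1 * 1 ≤ M * Z := Nat.mul_le_mul hM1 h3
    exact Fn_mono (by omega) (by omega)
  have hmul : ∀ p ∈ B M j, nm (V p) * nm (W p) = fq τ γ (ν p) := by
    intro p hp
    obtain ⟨g1, -⟩ := hζ p hp
    rw [hV, hW, nm_mk, nm_mk, hν]
    exact Fn_mul g1
  have hVWdt : ∀ p ∈ B M j, dt (V p) (W p) = 1 := by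
    intro p hp
    obtain ⟨g1, -⟩ := hζ p hp
    rw [hV, hW]
    exact dt_mk g1
  have hνmod : ∀ p ∈ B M j, ν p ≡ n₀ [MOD M] := by
    intro p hp
    obtain ⟨g1, g2, g3, g4, g5, -⟩ := hζ p hp
    rw [hν]
    unfold nu
    have e0 : M * p.2 ≡ 0 [MOD M] := Nat.modEq_zero_iff_dvd.2 (dvd_mul_right _ _)
    have e1 : 1 + M * p.1 ≡ 1 [MOD M] := by simp
    have a1 : (1 + M * p.1) * (ζ p).1 ≡ n₀ [MOD M] := by simpa using e1.mul g4
    have a2 : τ * (M * p.2 * (ζ p).1) ≡ 0 [MOD M] := by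
      simpa using (Nat.ModEq.refl τ).mul (e0.mul (Nat.ModEq.refl (ζ p).1))
    have a3 : γ * (M * p.2 * (ζ p).2.1) ≡ 0 [MOD M] := by
      simpa using (Nat.ModEq.refl γ).mul (e0.mul (Nat.ModEq.refl (ζ p).2.1))
    simpa using (a1.add a2).add a3
  have hνpos : ∀ p ∈ B M j, 1 ≤ ν p := by
    intro p hp
    obtain ⟨h3, h4, h5, h6, h7⟩ := hBm p hp
    obtain ⟨g1, -⟩ := hζ p hp
    rw [hν]
    unfold nu
    have hu : 1 ≤ (ζ p).2.1 := by
      by_contra hc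
      have : (ζ p).2.1 = 0 := by omega
      rw [this] at g1
      omega
    have : 1 * (1 * 1) ≤ γ * (M * p.2 * (ζ p).2.1) :=
      Nat.mul_le_mul hγ (Nat.mul_le_mul (Nat.mul_pos hM1 (by omega)) hu)
    omega
  -- the reduced pairs
  have he₁1 : ∀ p, (e₁ p).1 = V p := fun p => by rw [he₁]
  have he₁inj : ∀ p p', e₁ p = e₁ p' → p = p' := by
    intro p p' h
    have h1 : (e₁ p).1 = (e₁ p').1 := by rw [h]
    rw [he₁1, he₁1] at h1
    exact hVinj _ _ h1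
  have he₁dt : ∀ p ∈ B M j, dt (e₁ p).1 (e₁ p).2 = 1 := by
    intro p hp
    obtain ⟨-, -, -, -, -, -, g7, -⟩ := hζ p hp
    rw [he₁]
    simp only
    rw [hV]
    exact dt_mk g7
  have he₁nm : ∀ p ∈ B M j, nm (e₁ p).2 ≤ nm (V p) := by
    intro p hp
    obtain ⟨-, -, -, -, -, -, g7, g8⟩ := hζ p hp
    rw [he₁]
    simp only
    rw [hV, nm_mk, nm_mk]
    exact Fn_mono (Nat.mod_lt _ (by omega)).le g8
  have he₁sh : ∀ p ∈ B M j, sh (κ p : ℤ) (e₁ p) = (V p, W p) := by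
    intro p hp
    obtain ⟨-, -, -, -, -, g6, -, -⟩ := hζ p hp
    rw [he₁, hV, hW, hκ]
    unfold sh mk
    simp only [Prod.mk.injEq, true_and]
    have e1 : (((ζ p).1 % (1 + M * p.1) : ℕ) : ℤ) + (((ζ p).1 / (1 + M * p.1) : ℕ) : ℤ) *
        ((1 + M * p.1 : ℕ) : ℤ) = ((ζ p).1 : ℤ) := by
      have := Nat.mod_add_div (ζ p).1 (1 + M * p.1)
      have h : (((ζ p).1 % (1 + M * p.1) : ℕ) : ℤ) + ((1 + M * p.1 : ℕ) : ℤ) *
        (((ζ p).1 / (1 + M * p.1) : ℕ) : ℤ) = ((ζ p).1 : ℤ) := by exact_mod_cast this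
      rw [mul_comm (((ζ p).1 / (1 + M * p.1) : ℕ) : ℤ)]
      exact h
    have e2 : ((ζ p).2.2 : ℤ) + (((ζ p).1 / (1 + M * p.1) : ℕ) : ℤ) * ((M * p.2 : ℕ) : ℤ) =
        ((ζ p).2.1 : ℤ) := by exact_mod_cast g6.symm
    rw [e1, e2]
  have he₁cl : ∀ p ∈ B M j, (M : ℤ) ∣ (e₁ p).1.re - 1 ∧ (M : ℤ) ∣ (e₁ p).1.im ∧
      (M : ℤ) ∣ (e₁ p).2.re - (n₀ - ((κ p : ℕ) : ℤ)) ∧
      (M : ℤ) ∣ (e₁ p).2.im - 1 := by
    intro p hp
    obtain ⟨-, -, -, g4, g5, -, -, -⟩ := hζ p hp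
    have h := he₁sh p hp
    have hr : (e₁ p).2.re + (κ p : ℤ) * (e₁ p).1.re = ((ζ p).1 : ℤ) := by
      have := congrArg (fun e : Qd (τ : ℤ) (γ : ℤ) × Qd (τ : ℤ) (γ : ℤ) => e.2.re) h
      simp only [sh] at this
      rw [this, hW]
      rfl
    have hi : (e₁ p).2.im + (κ p : ℤ) * (e₁ p).1.im = ((ζ p).2.1 : ℤ) := by
      have := congrArg (fun e : Qd (τ : ℤ) (γ : ℤ) × Qd (τ : ℤ) (γ : ℤ) => e.2.im) h
      simp only [sh] at this
      rw [this, hW]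
      rfl
    have r1 : (e₁ p).1.re = 1 + M * p.1 := by
      rw [he₁1, hV]
      show ((1 + M * p.1 : ℕ) : ℤ) = _
      push_cast; ring
    have i1 : (e₁ p).1.im = M * p.2 := by
      rw [he₁1, hV]
      show ((M * p.2 : ℕ) : ℤ) = _
      push_cast; ring
    have m4 : (M : ℤ) ∣ ((ζ p).1 : ℤ) - n₀ := Nat.modEq_iff_dvd.1 g4.symm
    have m5 : (M : ℤ) ∣ ((ζ p).2.1 : ℤ) - 1 := by
      have := Nat.modEq_iff_dvd.1 g5.symm
      push_cast at this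
      exact this
    rw [r1] at hr
    rw [i1] at hi
    refine ⟨?_, ?_, ?_, ?_⟩
    · rw [r1]; exact ⟨p.1, by ring⟩
    · rw [i1]; exact dvd_mul_right _ _
    · have e : (e₁ p).2.re - (n₀ - ((κ p : ℕ) : ℤ)) =
          (((ζ p).1 : ℤ) - n₀) - M * ((κ p : ℤ) * p.1) := by linear_combination hr
      rw [e]
      exact dvd_sub m4 (dvd_mul_right _ _)
    · have e : (e₁ p).2.im - 1 = (((ζ p).2.1 : ℤ) - 1) - M * ((κ p : ℤ) * p.2) := by
        linear_combination hi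
      rw [e]
      exact dvd_sub m5 (dvd_mul_right _ _)
  have htle : ∀ p ∈ B M j, κ p < 2 * M + 1 := by
    intro p hp
    obtain ⟨-, g2, -⟩ := hζ p hp
    rw [hκ]
    have h1 : (ζ p).1 / (1 + M * p.1) ≤ 2 * M := by
      apply Nat.div_le_of_le_mul
      refine g2.trans (le_of_eq ?_)
      ring
    omega
  -- the large primes
  set Bad1 := (B M j).filter (fun p => ∃ l : ℕ, l.Prime ∧ L < (l : ℝ) ∧ l ^ 2 ∣ fq τ γ (ν p))
    with hBad1
  have hcast : ∀ p ∈ B M j, (nm (V p) : ℝ) ≤ Y := by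
    intro p hp
    exact_mod_cast hVle p hp
  have hcast2 : ∀ p ∈ B M j, (nm (W p) : ℝ) ≤ 4 * M ^ 2 * Y := by
    intro p hp
    exact_mod_cast hWle p hp
  have hYY : (Y : ℝ) ≤ 4 * M ^ 2 * Y := by
    have h1 : (1 : ℝ) ≤ 4 * M ^ 2 := by nlinarith
    exact le_mul_of_one_le_left (by positivity) h1
  have hb1 : (Bad1.card : ℝ) ≤ 4 ^ j / 8 := by
    refine le_trans ?_ hLg
    have h1 : Bad1.card ≤ ((dedge (τ : ℤ) (γ : ℤ) (4 * (M : ℝ) ^ 2 * Y)).filter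
        (fun e => ∃ l : ℕ, l.Prime ∧ L < (l : ℝ) ∧ l ^ 2 ∣ NN e)).card := by
      refine card_le_card_of_injOn (fun p => (V p, W p)) ?_ ?_
      · intro p hp
        have hp' : p ∈ Bad1 := hp
        rw [hBad1, mem_filter] at hp'
        obtain ⟨hpB, l, hl, hl2, hl3⟩ := hp'
        have hdt := hVWdt p hpB
        rw [mem_coe, mem_filter]
        refine ⟨?_, l, hl, hl2, by
          show l ^ 2 ∣ nm (V p) * nm (W p)
          rw [hmul p hpB]; exact hl3⟩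
        unfold dedge
        rw [mem_filter, mem_product, mem_pball hD, mem_pball hD]
        exact ⟨⟨⟨(prim_of_dt hdt).1, (hcast p hpB).trans hYY⟩, (prim_of_dt hdt).2,
          hcast2 p hpB⟩, hdt⟩
      · intro p _ p' _ h
        simp only [Prod.mk.injEq] at h
        exact hVinj _ _ h.1
    exact_mod_cast h1
  -- the primes of medium size
  set Bl : ℕ → ℕ → Finset (ℕ × ℕ) := fun l k =>
    (B M j).filter (fun p => l ^ 2 ∣ fq τ γ (ν p) ∧ κ p = k) with hBl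
  have hMpos : (0 : ℝ) < M := by linarith
  have hbl : ∀ l : ℕ, l.Prime → P < l → (l : ℝ) ≤ L → ∀ k : ℕ, ((Bl l k).card : ℝ) ≤
      ((6 * l ^ 4 : ℕ) : ℝ) * (C * (Y : ℝ) / ((M * l ^ 2 : ℕ) : ℝ) ^ 3) := by
    intro l hl hPl hlL k
    have hcard : (Bl l k).card = ((Bl l k).image e₁).card := by
      rw [card_image_of_injective]
      intro p p' h
      exact he₁inj p p' h
    rw [hcard]
    refine cnt_l hD M n₀ l k hl (hPD l hl hPl) (hPM' l hl hPl) (Y : ℝ) _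
      (by positivity) (fun x₁ y₁ x₂ y₂ => hE l hl hPl hlL x₁ y₁ x₂ y₂) _ ?_ ?_
    · intro e he
      rw [mem_image] at he
      obtain ⟨p, hp, rfl⟩ := he
      rw [hBl, mem_filter] at hp
      have hpB := hp.1
      have hdt := he₁dt p hpB
      unfold dedge
      rw [mem_filter, mem_product, mem_pball hD, mem_pball hD]
      refine ⟨⟨⟨(prim_of_dt hdt).1, ?_⟩, (prim_of_dt hdt).2, ?_⟩, hdt⟩
      · rw [he₁1]
        exact hcast p hpB
      · have h1 : (nm (e₁ p).2 : ℝ) ≤ nm (V p) := by exact_mod_cast he₁nm p hpB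
        exact h1.trans (hcast p hpB)
    · intro e he
      rw [mem_image] at he
      obtain ⟨p, hp, rfl⟩ := he
      rw [hBl, mem_filter] at hp
      obtain ⟨hpB, h1, h2⟩ := hp
      have h3 := he₁sh p hpB
      have h4 := he₁cl p hpB
      rw [h2] at h3 h4
      rw [h3]
      refine ⟨?_, h4⟩
      show l ^ 2 ∣ nm (V p) * nm (W p)
      rw [hmul p hpB]
      exact h1
  have hYR : (Y : ℝ) = 16 * (1 + τ + γ) * M ^ 2 * 4 ^ j := by rw [hY]; push_cast; ring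
  have hbl2 : ∀ l : ℕ, l.Prime → P < l → (l : ℝ) ≤ L →
      (((range (2 * M + 1)).biUnion (Bl l)).card : ℝ) ≤
        288 * (1 + τ + γ) * C * 4 ^ j * (1 / (l : ℝ) ^ 2) := by
    intro l hl hPl hlL
    have hl0 : (0 : ℝ) < l := by exact_mod_cast hl.pos
    have h1 : (((range (2 * M + 1)).biUnion (Bl l)).card : ℝ) ≤
        ∑ k ∈ range (2 * M + 1), ((Bl l k).card : ℝ) := by exact_mod_cast card_biUnion_le
    refine h1.trans ((sum_le_sum fun k _ => hbl l hl hPl hlL k).trans ?_)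
    rw [sum_const, card_range, nsmul_eq_mul, hYR]
    have h2 : ((6 * l ^ 4 : ℕ) : ℝ) * (C * (16 * (1 + τ + γ) * M ^ 2 * 4 ^ j) /
        ((M * l ^ 2 : ℕ) : ℝ) ^ 3) =
        96 * (1 + τ + γ) * C * 4 ^ j * (1 / (l : ℝ) ^ 2) / M := by
      push_cast
      field_simp
      ring
    rw [h2]
    have h3 : (((2 * M + 1 : ℕ) : ℕ) : ℝ) ≤ 3 * M := by push_cast; linarith
    calc (((2 * M + 1 : ℕ) : ℕ) : ℝ) * (96 * (1 + τ + γ) * C * 4 ^ j * (1 / (l : ℝ) ^ 2) / M) ≤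
        3 * M * (96 * (1 + τ + γ) * C * 4 ^ j * (1 / (l : ℝ) ^ 2) / M) :=
          mul_le_mul_of_nonneg_right h3 (by positivity)
      _ = 288 * (1 + τ + γ) * C * 4 ^ j * (1 / (l : ℝ) ^ 2) := by
          field_simp
          ring
  set LL : Finset ℕ := (Ioc P ⌊L⌋₊).filter (fun l => l.Prime) with hLL
  have hLLm : ∀ l ∈ LL, l.Prime ∧ P < l ∧ (l : ℝ) ≤ L := by
    intro l hl
    rw [hLL, mem_filter, mem_Ioc] at hl
    refine ⟨hl.2, hl.1.1, ?_⟩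
    have h1 : l ≠ 0 := hl.2.ne_zero
    exact (Nat.le_floor_iff' h1).1 hl.1.2
  set Bad2 := LL.biUnion (fun l => (range (2 * M + 1)).biUnion (Bl l)) with hBad2
  have hb2 : (Bad2.card : ℝ) ≤ 4 ^ j / 8 := by
    have h1 : (Bad2.card : ℝ) ≤ ∑ l ∈ LL, (((range (2 * M + 1)).biUnion (Bl l)).card : ℝ) := by
      exact_mod_cast card_biUnion_le
    refine h1.trans ((sum_le_sum fun l hl => hbl2 l (hLLm l hl).1 (hLLm l hl).2.1
      (hLLm l hl).2.2).trans ?_)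
    rw [← mul_sum]
    have h2 := tail_all P (by omega) LL fun l hl => (hLLm l hl).2.1
    have hP0 : (0 : ℝ) < P := by exact_mod_cast (by omega : 0 < P)
    calc 288 * (1 + τ + γ) * C * 4 ^ j * ∑ l ∈ LL, 1 / (l : ℝ) ^ 2 ≤
        288 * (1 + τ + γ) * C * 4 ^ j * (1 / (P : ℝ)) :=
          mul_le_mul_of_nonneg_left h2 (by positivity)
      _ ≤ 4 ^ j / 8 := by
          rw [mul_one_div, div_le_div_iff₀ hP0 (by norm_num)]
          have h5 : (0 : ℝ) < 4 ^ j := by positivity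
          calc 288 * (1 + τ + γ) * C * 4 ^ j * 8 = 4 ^ j * (2304 * (1 + τ + γ) * C) := by ring
            _ ≤ 4 ^ j * P := mul_le_mul_of_nonneg_left hP3 h5.le
  -- the good points
  set G := (B M j).filter (fun p => Squarefree (fq τ γ (ν p))) with hG
  have hcov : B M j ⊆ G ∪ (Bad1 ∪ Bad2) := by
    intro p hp
    by_cases hsq : Squarefree (fq τ γ (ν p))
    · exact mem_union_left _ (mem_filter.2 ⟨hp, hsq⟩)
    · apply mem_union_right
      rw [Nat.squarefree_iff_prime_squarefree] at hsq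
      push Not at hsq
      obtain ⟨l, hl, hl2⟩ := hsq
      rw [← pow_two] at hl2
      have hPl : P < l := by
        by_contra hc
        have hc' : l ≤ P := not_lt.1 hc
        have h1 := hνmod p hp
        have h2 : fq τ γ (ν p) ≡ fq τ γ n₀ [MOD l ^ 2] := fq_modEq (h1.of_dvd (hPM l hl hc'))
        exact hn₀ l hl hc' ((h2.dvd_iff dvd_rfl).1 hl2)
      by_cases hlL : L < (l : ℝ)
      · exact mem_union_left _ (mem_filter.2 ⟨hp, l, hl, hlL, hl2⟩)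
      · apply mem_union_right
        rw [hBad2, mem_biUnion]
        refine ⟨l, ?_, ?_⟩
        · rw [hLL, mem_filter, mem_Ioc]
          exact ⟨⟨hPl, Nat.le_floor (not_lt.1 hlL)⟩, hl⟩
        · rw [mem_biUnion]
          refine ⟨κ p, mem_range.2 (htle p hp), ?_⟩
          rw [hBl, mem_filter]
          exact ⟨hp, hl2, rfl⟩
  have hcB := card_B M j hM2 hj
  have hGcard : (4 : ℝ) ^ j / 4 ≤ (G.card : ℝ) := by
    have h1 := (card_le_card hcov).trans (card_union_le _ _)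
    have h2 := card_union_le Bad1 Bad2
    have h3 : ((B M j).card : ℝ) ≤ G.card + (Bad1.card + Bad2.card) := by
      exact_mod_cast h1.trans (Nat.add_le_add_left h2 _)
    linarith
  refine hGcard.trans ?_
  have hfin : G.card ≤ ((SP (τ : ℤ) (γ : ℤ) X).filter (fun p => Squarefree (p.1 * p.2) ∧
      ∃ n : ℕ, 0 < 2 * (n : ℤ) + (τ : ℤ) ∧
        (p.1 * p.2 : ℤ) = (n : ℤ) ^ 2 + (τ : ℤ) * n + (γ : ℤ) ∧ n ≡ n₀ [MOD M])).card := by
    refine card_le_card_of_injOn (fun p => (nm (V p), nm (W p))) ?_ ?_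
    · intro p hp
      have hp' : p ∈ G := hp
      rw [hG, mem_filter] at hp'
      obtain ⟨hpB, hsq⟩ := hp'
      have hm := hmul p hpB
      rw [mem_coe, mem_filter]
      have hYX : Y ≤ X := by
        refine le_trans ?_ hX
        have h1 : 1 ≤ 4 * M ^ 2 := by nlinarith
        exact Nat.le_mul_of_pos_left _ h1
      have hmZ : ((nm (V p) : ℤ) * (nm (W p) : ℤ)) = ((ν p : ℕ) : ℤ) ^ 2 + (τ : ℤ) * (ν p : ℕ) +
          (γ : ℤ) := by
        rw [← fq_cast, ← hm]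
        push_cast
        rfl
      have hpos : 0 < 2 * ((ν p : ℕ) : ℤ) + (τ : ℤ) := by
        have h1 := hνpos p hpB
        have h2 : (1 : ℤ) ≤ (ν p : ℕ) := by exact_mod_cast h1
        have h3 : (0 : ℤ) ≤ (τ : ℤ) := by positivity
        linarith
      have hfpos : 0 < fq τ γ (ν p) := by
        unfold fq
        omega
      have hw1 : 1 ≤ nm (W p) := by
        by_contra hc
        have h0 : nm (W p) = 0 := by omega
        rw [h0, mul_zero] at hm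
        omega
      refine ⟨?_, ?_, ν p, hpos, hmZ, hνmod p hpB⟩
      · unfold SP
        rw [mem_filter, mem_product, mem_Icc, mem_Icc]
        exact ⟨⟨⟨hV1 p, (hVle p hpB).trans hYX⟩, hw1, (hWle p hpB).trans hX⟩, ν p, hpos, hmZ⟩
      · simp only
        rw [hm]
        exact hsq
    · intro p hp p' hp' h
      have hp1 : p ∈ G := hp
      have hp1' : p' ∈ G := hp'
      rw [hG, mem_filter] at hp1 hp1'
      obtain ⟨h3, h4, h5, h6, h7⟩ := hBm p hp1.1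
      obtain ⟨h3', h4', h5', h6', h7'⟩ := hBm p' hp1'.1
      simp only [Prod.mk.injEq] at h
      obtain ⟨e1, e2⟩ := h
      have k1 := hmul p hp1.1
      have k2 := hmul p' hp1'.1
      rw [e1, e2, k2] at k1
      have e4 : ν p = ν p' := (fq_mono.injective k1).symm
      obtain ⟨g1, -⟩ := hζ p hp1.1
      obtain ⟨g1', -⟩ := hζ p' hp1'.1
      have r1 := Fn_row (τ := τ) (γ := γ) g1
      have r2 := Fn_row (τ := τ) (γ := γ) g1'
      rw [← hν] at r1 r2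
      rw [hV, hV, nm_mk, nm_mk] at e1
      rw [e1, e4] at r1
      have hM0Z : (M : ℤ) ≠ 0 := by exact_mod_cast (by omega : M ≠ 0)
      have hc7 : Nat.Coprime (1 + M * p.1) p.2 := Nat.Coprime.coprime_mul_left_right h7
      have hc7' : Nat.Coprime (1 + M * p'.1) p'.2 := Nat.Coprime.coprime_mul_left_right h7'
      have hF1 : (1 + M * p.1) ^ 2 + τ * (1 + M * p.1) * (M * p.2) + γ * 1 * (M * p.2) ^ 2 =
          Fn τ γ (1 + M * p.1) (M * p.2) := by unfold Fn; ring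
      have hF1' : (1 + M * p'.1) ^ 2 + τ * (1 + M * p'.1) * (M * p'.2) +
          γ * 1 * (M * p'.2) ^ 2 = Fn τ γ (1 + M * p'.1) (M * p'.2) := by unfold Fn; ring
      obtain ⟨k3, k4⟩ := inj2 1 γ τ M (1 + M * p.1) p.2 (1 + M * p'.1) p'.2
        (((ζ p).2.1 : ℤ) * p'.2 - (ζ p').2.1 * p.2) le_rfl hγ hM1 (by omega) (by omega) (by omega)
        (by omega) hc7 hc7' (by rw [hF1, hF1', e1]) (by
          rw [hF1, e1]
          apply mul_left_cancel₀ hM0Z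
          push_cast at r1 r2 ⊢
          linear_combination (M : ℤ) * (p'.2 : ℤ) * r1 - (M : ℤ) * (p.2 : ℤ) * r2)
      have k5 : M * p.1 = M * p'.1 := by omega
      exact Prod.ext (Nat.eq_of_mul_eq_mul_left hM1 k5) k4
  exact_mod_cast hfin

/-- SPS, from the equidistribution of the pairs in residue classes and the bound for large primes -/
theorem spsc_of {t c : ℤ} {f : ℕ} {χ : DirichletCharacter ℂ f} (hF : Fd t c f χ)
    (hl : ∀ l : ℕ, l.Prime → l ∣ f → ∀ n : ℤ, ¬ ((l ^ 2 : ℕ) : ℤ) ∣ n ^ 2 + t * n + c)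
    (hEQU : S_EQU t c) (hLARGE : S_LARGE t c) : Pool.Agent.W251.EG.S_SPSc t c := by
  classical
  have hdisc := hF.disc
  have hthree := hF.three
  have hf3 : (3 : ℤ) ≤ f := by exact_mod_cast hthree
  obtain ⟨τ, rfl⟩ : ∃ τ : ℕ, t = (τ : ℤ) := by
    rcases hF.tt with h | h
    · exact ⟨0, by rw [h]; rfl⟩
    · exact ⟨1, by rw [h]; rfl⟩
  have hcpos : 0 < c := by nlinarith [sq_nonneg (τ : ℤ)]
  obtain ⟨γ, rfl⟩ : ∃ γ : ℕ, c = (γ : ℤ) := ⟨c.toNat, (Int.toNat_of_nonneg hcpos.le).symm⟩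
  have hγ : 1 ≤ γ := by exact_mod_cast hcpos
  have hD : (τ : ℤ) ^ 2 < 4 * (γ : ℤ) := by rw [hdisc]; linarith
  have hdd : ∀ l : ℕ, (l : ℤ) ∣ (τ : ℤ) ^ 2 - 4 * (γ : ℤ) → l ∣ f := by
    intro l h
    have e : (τ : ℤ) ^ 2 - 4 * (γ : ℤ) = -(f : ℤ) := by rw [hdisc]; ring
    rw [e, dvd_neg] at h
    exact_mod_cast h
  have hfq : ∀ (l n : ℕ), l ^ 2 ∣ fq τ γ n ↔
      ((l ^ 2 : ℕ) : ℤ) ∣ (n : ℤ) ^ 2 + (τ : ℤ) * n + (γ : ℤ) := by
    intro l n
    rw [← fq_cast]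
    exact Int.natCast_dvd_natCast.symm
  have hdf : ∀ l : ℕ, l.Prime → (l : ℤ) ∣ (τ : ℤ) ^ 2 - 4 * (γ : ℤ) → ∀ n, ¬ l ^ 2 ∣ fq τ γ n := by
    intro l hlp h n
    rw [hfq]
    exact hl l hlp (hdd l h) n
  intro q a hq hqa
  obtain ⟨C, hC, hE⟩ := hEQU
  obtain ⟨A, hLg⟩ := hLARGE
  obtain ⟨P, hP⟩ := exists_nat_ge (max (2304 * (1 + τ + γ) * C) (max (2 : ℝ) (max (q : ℝ) f)))
  have hP3 : 2304 * (1 + τ + γ) * C ≤ P := (le_max_left _ _).trans hP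
  have hP2 : 2 ≤ P := by
    have : (2 : ℝ) ≤ P := ((le_max_left _ _).trans (le_max_right _ _)).trans hP
    exact_mod_cast this
  have hPq : q ≤ P := by
    have : (q : ℝ) ≤ P :=
      (((le_max_left _ _).trans (le_max_right _ _)).trans (le_max_right _ _)).trans hP
    exact_mod_cast this
  have hPf : f ≤ P := by
    have : (f : ℝ) ≤ P :=
      (((le_max_right _ _).trans (le_max_right _ _)).trans (le_max_right _ _)).trans hP
    exact_mod_cast this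
  obtain ⟨n₀, hn1, hn2⟩ := choice hdf q a (by
    intro l hlp hlq
    rw [hfq]
    exact hqa l hlp hlq) P
  obtain ⟨M, hM⟩ : ∃ M : ℕ, M = q * P.factorial ^ 2 := ⟨_, rfl⟩
  have hM1 : 1 ≤ M := by
    rw [hM]
    have : 0 < P.factorial := Nat.factorial_pos P
    have : 0 < q * P.factorial ^ 2 := by positivity
    omega
  have hM2 : 2 ∣ M := by
    rw [hM]
    exact ((Nat.dvd_factorial (by norm_num) hP2).trans (dvd_pow_self _ two_ne_zero)).mul_left _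
  have hPM : ∀ l : ℕ, l.Prime → l ≤ P → l ^ 2 ∣ M := by
    intro l hl hlP
    rw [hM]
    exact (pow_dvd_pow_of_dvd (Nat.dvd_factorial hl.pos hlP) 2).mul_left _
  have hPM' : ∀ l : ℕ, l.Prime → P < l → Nat.Coprime l M := by
    intro l hl hlP
    rw [Nat.Prime.coprime_iff_not_dvd hl, hM]
    intro h
    rcases (Nat.Prime.dvd_mul hl).1 h with h | h
    · have := Nat.le_of_dvd hq h
      omega
    · have := (Nat.Prime.dvd_factorial hl).1 (hl.dvd_of_dvd_pow h)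
      omega
  have hPD : ∀ l : ℕ, l.Prime → P < l → ¬ (l : ℤ) ∣ (τ : ℤ) ^ 2 - 4 * (γ : ℤ) := by
    intro l hlp hPl h
    have := Nat.le_of_dvd (by omega) (hdd l h)
    omega
  have hqM : q ∣ M := by rw [hM]; exact dvd_mul_right _ _
  have hMR : (1 : ℝ) ≤ M := by exact_mod_cast hM1
  obtain ⟨X₁, hX₁⟩ := hE (2 * A + 1)
  obtain ⟨W, hW⟩ : ∃ W : ℕ, W = 4 * M ^ 2 * (16 * (1 + τ + γ) * M ^ 2) := ⟨_, rfl⟩
  have hW1 : 1 ≤ W := by
    rw [hW]
    have : 0 < M := hM1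
    have : 0 < 4 * M ^ 2 * (16 * (1 + τ + γ) * M ^ 2) := by positivity
    omega
  have hWpos : (0 : ℝ) < W := by exact_mod_cast hW1
  obtain ⟨X₂, hX₂⟩ := hLg (1 / (8 * (W : ℝ))) (by positivity)
  obtain ⟨J₁, hJ₁⟩ := pow_unbounded_of_one_lt
    (max (max X₁ X₂) (max (Real.exp (M * 4 ^ A)) (4 * (M : ℝ) ^ 2))) (show (1 : ℝ) < 4 by norm_num)
  set J := max 6 J₁ with hJ
  refine ⟨1 / (16 * W), by positivity, 4 ^ J * W, fun X hX => ?_⟩
  set j := Nat.log 4 (X / W) with hj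
  have hX' : 4 ^ J ≤ X / W := (Nat.le_div_iff_mul_le hW1).2 hX
  have hjJ : J ≤ j := by
    rw [hj]
    exact Nat.le_log_of_pow_le (by norm_num) hX'
  have hj6 : 6 ≤ j := (le_max_left _ _).trans hjJ
  have hjX : 4 ^ j * W ≤ X := by
    refine (Nat.le_div_iff_mul_le hW1).1 (Nat.pow_log_le_self 4 ?_)
    have : 0 < 4 ^ J := by positivity
    omega
  have hjlow : (X : ℝ) ≤ (4 : ℝ) ^ (j + 1) * W := by
    have h1 : X / W < 4 ^ (j + 1) := Nat.lt_pow_succ_log_self (by norm_num) _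
    have h2 : X < 4 ^ (j + 1) * W := (Nat.div_lt_iff_lt_mul hW1).1 h1
    exact_mod_cast h2.le
  obtain ⟨Y, hY⟩ : ∃ Y : ℕ, Y = 16 * (1 + τ + γ) * M ^ 2 * 4 ^ j := ⟨_, rfl⟩
  have hYW : 4 * M ^ 2 * Y = 4 ^ j * W := by rw [hY, hW]; ring
  have hYWR : 4 * (M : ℝ) ^ 2 * Y = 4 ^ j * W := by exact_mod_cast hYW
  have h4j : (4 : ℝ) ^ J₁ ≤ 4 ^ j :=
    pow_le_pow_right₀ (by norm_num) ((le_max_right _ _).trans hjJ)
  have hYj : (4 : ℝ) ^ j ≤ Y := by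
    have h1 : 1 * 4 ^ j ≤ 16 * (1 + τ + γ) * M ^ 2 * 4 ^ j := by
      apply Nat.mul_le_mul_right
      have : 0 < M := hM1
      have : 0 < 16 * (1 + τ + γ) * M ^ 2 := by positivity
      omega
    rw [one_mul, ← hY] at h1
    exact_mod_cast h1
  have hYbig := (hJ₁.le.trans h4j).trans hYj
  have hYX1 : X₁ ≤ Y := ((le_max_left _ _).trans (le_max_left _ _)).trans hYbig
  have hYX2 : X₂ ≤ Y := ((le_max_right _ _).trans (le_max_left _ _)).trans hYbig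
  have hYe : Real.exp (M * 4 ^ A) ≤ Y := ((le_max_left _ _).trans (le_max_right _ _)).trans hYbig
  have hYM : 4 * (M : ℝ) ^ 2 ≤ Y := ((le_max_right _ _).trans (le_max_right _ _)).trans hYbig
  have hY0 : (0 : ℝ) < Y := (Real.exp_pos _).trans_le hYe
  have hlogY : (M : ℝ) * 4 ^ A ≤ Real.log Y := by
    rw [Real.le_log_iff_exp_le hY0]
    exact hYe
  have hlogY0 : 0 ≤ Real.log Y := le_trans (by positivity) hlogY
  have hY1 : 1 ≤ 4 * (M : ℝ) ^ 2 := by nlinarith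
  have hlogX' : Real.log (4 * (M : ℝ) ^ 2 * Y) ≤ 2 * Real.log Y := by
    rw [Real.log_mul (by positivity) hY0.ne']
    have := Real.log_le_log (by positivity) hYM
    linarith
  have hlogX'0 : 0 ≤ Real.log (4 * (M : ℝ) ^ 2 * Y) := by
    apply Real.log_nonneg
    have h1 : (1 : ℝ) ≤ Y := hY1.trans hYM
    nlinarith
  have hlev := level hD C hC M n₀ P j X Y (Real.log (4 * (M : ℝ) ^ 2 * Y) ^ A) hM1 hM2 hγ hY
    hPM hPM' hPD hP3 (by omega) hn2 hj6 (by rw [hYW]; exact hjX) (by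
      intro l hl hPl hlL x₁ y₁ x₂ y₂
      exact hX₁ Y (M * l ^ 2) x₁ y₁ x₂ y₂ hYX1 (Nat.mul_pos hM1 (by
        have := hl.pos
        positivity)) (by
        push_cast
        have h1 : (l : ℝ) ^ 2 ≤ (4 ^ A) * Real.log Y ^ (2 * A) := by
          calc (l : ℝ) ^ 2 ≤ (Real.log (4 * (M : ℝ) ^ 2 * Y) ^ A) ^ 2 :=
                pow_le_pow_left₀ (by positivity) hlL 2
            _ ≤ ((2 * Real.log Y) ^ A) ^ 2 :=
                pow_le_pow_left₀ (by positivity) (pow_le_pow_left₀ hlogX'0 hlogX' A) 2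
            _ = (4 ^ A) * Real.log Y ^ (2 * A) := by
                rw [← pow_mul, mul_pow, mul_comm A 2, pow_mul (2 : ℝ)]
                norm_num
        calc (M : ℝ) * l ^ 2 ≤ M * ((4 ^ A) * Real.log Y ^ (2 * A)) :=
              mul_le_mul_of_nonneg_left h1 (by positivity)
          _ = (M * 4 ^ A) * Real.log Y ^ (2 * A) := by ring
          _ ≤ Real.log Y * Real.log Y ^ (2 * A) :=
              mul_le_mul_of_nonneg_right hlogY (by positivity)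
          _ = Real.log Y ^ (2 * A + 1) := by ring)) (by
      have h := hX₂ (4 * (M : ℝ) ^ 2 * Y) (hYX2.trans (le_mul_of_one_le_left hY0.le hY1))
      refine h.trans (le_of_eq ?_)
      rw [hYWR]
      field_simp)
  have hmono : (((SP (τ : ℤ) (γ : ℤ) X).filter (fun p => Squarefree (p.1 * p.2) ∧
      ∃ n : ℕ, 0 < 2 * (n : ℤ) + (τ : ℤ) ∧
        (p.1 * p.2 : ℤ) = (n : ℤ) ^ 2 + (τ : ℤ) * n + (γ : ℤ) ∧ n ≡ n₀ [MOD M])).card : ℝ) ≤
      (((SP (τ : ℤ) (γ : ℤ) X).filter (fun p => Squarefree (p.1 * p.2) ∧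
      ∃ n : ℕ, 0 < 2 * (n : ℤ) + (τ : ℤ) ∧
        (p.1 * p.2 : ℤ) = (n : ℤ) ^ 2 + (τ : ℤ) * n + (γ : ℤ) ∧ n ≡ a [MOD q])).card : ℝ) := by
    have h1 : (SP (τ : ℤ) (γ : ℤ) X).filter (fun p => Squarefree (p.1 * p.2) ∧
      ∃ n : ℕ, 0 < 2 * (n : ℤ) + (τ : ℤ) ∧
        (p.1 * p.2 : ℤ) = (n : ℤ) ^ 2 + (τ : ℤ) * n + (γ : ℤ) ∧ n ≡ n₀ [MOD M]) ⊆
      (SP (τ : ℤ) (γ : ℤ) X).filter (fun p => Squarefree (p.1 * p.2) ∧
      ∃ n : ℕ, 0 < 2 * (n : ℤ) + (τ : ℤ) ∧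
        (p.1 * p.2 : ℤ) = (n : ℤ) ^ 2 + (τ : ℤ) * n + (γ : ℤ) ∧ n ≡ a [MOD q]) := by
      intro p hp
      rw [mem_filter] at hp ⊢
      obtain ⟨h1, h2, n, h3, h4, h5⟩ := hp
      exact ⟨h1, h2, n, h3, h4, (h5.of_dvd hqM).trans hn1⟩
    exact_mod_cast card_le_card h1
  refine le_trans ?_ (hlev.trans hmono)
  calc 1 / (16 * (W : ℝ)) * X ≤ 1 / (16 * (W : ℝ)) * ((4 : ℝ) ^ (j + 1) * W) :=
        mul_le_mul_of_nonneg_left hjlow (by positivity)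
    _ = 4 ^ j / 4 := by
        rw [pow_succ]
        field_simp
        ring

end Pool.Agent.W436.EG
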